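import Mathlib
import Pool.Agent.Helper6.SW.DefsZ

/-! Hofstadter's consecutive-sum sequence: definitions and statements of all modules for the lower
bound `a n ≥ n + c log n / log log n`. -/

set_option autoImplicit false

namespace Pool.Agent.Helper12.Hof

open Finset Pool.Agent.Helper6.SW

/-- The defining recursion of the sequence. -/
def IsHof (a : ℕ → ℕ) : Prop := a 1 = 1 ∧ a 2 = 2 ∧
  ∀ n : ℕ, 3 ≤ n → IsLeast {m : ℕ | a (n - 1) < m ∧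
    ∃ i j : ℕ, 1 ≤ i ∧ i < j ∧ j < n ∧ m = ∑ k ∈ Finset.Icc i j, a k} (a n)

/-- `m` does not occur in the sequence. -/
def Missing (a : ℕ → ℕ) (m : ℕ) : Prop := ∀ k, 1 ≤ k → a k ≠ m

open Classical in
/-- the missing numbers in `[1, X]`. -/
noncomputable def miss (a : ℕ → ℕ) (X : ℕ) : Finset ℕ := (Finset.Icc 1 X).filter (Missing a)

open Classical in
/-- the sum of the missing numbers in `[α, β]`. -/
noncomputable def mE (a : ℕ → ℕ) (α β : ℕ) : ℕ := ∑ x ∈ (Finset.Icc α β).filter (Missing a), x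

/-! ### Number theory -/

/-- H-1a: the error integral, uniformly in the width -/
def StErrU : Prop := ∀ k : ℕ, ∃ D : ℝ, ∀ V X : ℝ, 0 < V → V ≤ 1 → Real.exp 2 ≤ X →
  |∑ n ∈ Icc 1 (NX V X), (ArithmeticFunction.vonMangoldt n - 1) * om V k X n| ≤ D / V

/-- H-1b: mass of the weight on the integers, uniformly in the width -/
def StOmU : Prop := ∀ k : ℕ, ∃ c : ℝ, 0 < c ∧ ∀ V X : ℝ, 0 < V → V ≤ 1 → Real.exp 2 ≤ X →
  8 ≤ V * X → c * V * (Real.log X) ^ k ≤ ∑ n ∈ Icc 1 (NX V X), om V k X n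

/-- H-1c: prime powers, uniformly in the width -/
def StPPU : Prop := ∀ k : ℕ, ∃ X₀ : ℝ, ∀ V X : ℝ, 0 < V → V ≤ 1 → X₀ ≤ X →
  ∑ n ∈ Icc 1 (NX V X), ArithmeticFunction.vonMangoldt n * om V k X n ≤ Mass V k X + 1

/-- H-1: primes in short intervals -/
def StShort : Prop := ∀ A : ℕ, ∃ c X₀ : ℝ, 0 < c ∧ ∀ X : ℝ, X₀ ≤ X →
  c * X / (Real.log X) ^ (A + 1) ≤
    (((Icc 1 ⌊2 * X⌋₊).filter (fun p : ℕ => p.Prime ∧
      |(p : ℝ) - X| ≤ X / (Real.log X) ^ A)).card : ℝ)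

/-- H-2: a small divisor with many divisors -/
def StLandreau : Prop := ∀ (j y n : ℕ), 1 ≤ y → 1 ≤ n → n ^ 2 ≤ y ^ j →
  ∃ a : ℕ, a ∣ n ∧ a ≤ y ∧ n.divisors.card ≤ 2 ^ j * a.divisors.card ^ j

/-- H-3: moments of the divisor function -/
def StDivMoment : Prop := ∀ (r J : ℕ), 1 ≤ J →
  ∑ a ∈ Icc 1 J, ((a.divisors.card : ℝ) ^ r) / a ≤ (1 + Real.log J) ^ (2 ^ r)

/-- H-4: the divisor function in an arithmetic progression -/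
def StDivAP : Prop := ∀ (q J : ℕ) (c : ℤ), 1 ≤ J → 1 ≤ q → 0 < c → c < q →
  IsCoprime c (q : ℤ) → (J + 1) * q ≤ J ^ 3 →
  ∑ j ∈ Icc (-(J : ℤ)) J, (((c + j * q).natAbs.divisors.card : ℕ) : ℝ) ≤
    256 * J * (1 + Real.log J) ^ 64

/-- H-5: pairs with given product modulo a power of two -/
def StPairs : Prop := ∀ (n J : ℕ) (c Y : ℤ), 1 ≤ J → 0 < c → c < 2 ^ n → 0 ≤ Y →
  Y ^ 2 + c ≤ J * 2 ^ n → (J + 1) * 2 ^ n ≤ J ^ 3 →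
  ((((Icc (-Y) Y) ×ˢ (Icc (-Y) Y)).filter (fun w : ℤ × ℤ =>
    Odd (w.1 + w.2) ∧ (2 : ℤ) ^ n ∣ w.1 * w.2 - c)).card : ℝ) ≤
    1024 * J * (1 + Real.log J) ^ 64

/-! ### Windows -/

/-- `2^(n-1) p` is the sum of a window whose missing numbers are all at most `m` -/
def TypeA (a : ℕ → ℕ) (m n p : ℕ) : Prop := ∃ α β : ℕ, 1 ≤ α ∧ α ≤ m ∧ m < β ∧
  (β + 1 - α) * (α + β) = 2 ^ n * p + 2 * mE a α m

/-- `2^(n-1) p` is the sum of a window whose largest missing number is larger than `m` -/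
def TypeB (a : ℕ → ℕ) (m n p : ℕ) : Prop := ∃ α β m' : ℕ, 1 ≤ α ∧ α ≤ m' ∧ m < m' ∧ m' ≤ β ∧
  m' ≤ 4 ^ n ∧ α < β ∧ Missing a m' ∧
  (β + 1 - α) * (α + β) = 2 ^ n * p + 2 * mE a α m'

/-- H-6: the number of windows of type A -/
def StCountA : Prop := ∀ (a : ℕ → ℕ) (m n J : ℕ) (P : Finset ℕ), IsHof a → Missing a m → 1 ≤ m →
  2 * m ≤ 2 ^ n → 2 * (m * (miss a m).card) < 2 ^ n → 1 ≤ J →
  16 * m ^ 2 + 2 ^ n ≤ J * 2 ^ n → (J + 1) * 2 ^ n ≤ J ^ 3 →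
  (∀ p ∈ P, p < 2 ^ n + 2 * m ∧ 2 ^ n < p + 2 * m ∧ TypeA a m n p) →
  (P.card : ℝ) ≤ (miss a m).card * (1024 * J * (1 + Real.log J) ^ 64)

/-- H-7: the number of windows of type B -/
def StCountB : Prop := ∀ (a : ℕ → ℕ) (m n R Y : ℕ) (P : Finset ℕ), IsHof a → 1 ≤ m → 1 ≤ R →
  (∀ m', m < m' → m' ≤ R * m → ¬ Missing a m') →
  2 * 4 ^ n + 2 * ((miss a (4 ^ n)).card * (R * m)) ≤ Y * (R * m) → 2 * Y ≤ 2 ^ n →
  (∀ p ∈ P, p ≤ 2 * 2 ^ n ∧ TypeB a m n p) →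
  P.card ≤ (miss a (4 ^ n)).card ^ 2 * (3 * Y + 1)

/-- H-8: every blocked number which is not missing is of type A or B -/
def StSplit : Prop := ∀ (a : ℕ → ℕ) (m n p : ℕ), IsHof a → Missing a m → 1 ≤ m → 1 ≤ n →
  8 * m ≤ 2 ^ n → p.Prime → Odd p → p < 2 ^ n + 2 * m → 2 ^ n < p + 2 * m →
  ¬ Missing a (2 ^ (n - 1) * p) → TypeA a m n p ∨ TypeB a m n p

/-- H-9: the combinatorial part -/
def StComb : Prop := ∀ (a : ℕ → ℕ) (m n R J Y : ℕ) (P : Finset ℕ), IsHof a → Missing a m →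
  1 ≤ m → 1 ≤ n → 1 ≤ R → (∀ m', m < m' → m' ≤ R * m → ¬ Missing a m') →
  8 * m ≤ 2 ^ n → 2 * (m * (miss a (4 ^ n)).card) < 2 ^ n → 1 ≤ J →
  16 * m ^ 2 + 2 ^ n ≤ J * 2 ^ n → (J + 1) * 2 ^ n ≤ J ^ 3 →
  2 * 4 ^ n + 2 * ((miss a (4 ^ n)).card * (R * m)) ≤ Y * (R * m) → 2 * Y ≤ 2 ^ n →
  (∀ p ∈ P, p.Prime ∧ Odd p ∧ p < 2 ^ n + 2 * m ∧ 2 ^ n < p + 2 * m) →
  (P.card : ℝ) ≤ (miss a (4 ^ n)).card +
    (miss a (4 ^ n)).card * (1024 * J * (1 + Real.log J) ^ 64) +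
    (miss a (4 ^ n)).card ^ 2 * (3 * Y + 1)

/-- H-10: the dichotomy -/
def StGap : Prop := ∃ m₀ C : ℕ, ∀ a : ℕ → ℕ, IsHof a → ∀ m : ℕ, m₀ ≤ m → Missing a m →
  (Real.log m) ^ 2 < ((miss a (m ^ 3)).card : ℝ) ∨
    ∃ m' : ℕ, m < m' ∧ (m' : ℝ) ≤ m * (Real.log m) ^ C ∧ Missing a m'

/-- H-11: the theorem -/
def StFinal : Prop := ∃ c : ℝ, 0 < c ∧ ∃ n₀ : ℕ, ∀ a : ℕ → ℕ, IsHof a → ∀ n : ℕ, n₀ ≤ n →
  (n : ℝ) + c * (Real.log n / Real.log (Real.log n)) ≤ a n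

end Pool.Agent.Helper12.Hof
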