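import Mathlib
import Pool.Agent.Helper12.Hof.Basic

/-! H-9: the combinatorial part.

PROOF.  Split `P` into the `p` with `2^(n-1) p` missing, the remaining `p` of type A and the remaining
`p` of type B (`StSplit`).  The first part has at most `card (miss a (4^n))` elements: `p ↦ 2^(n-1) p`
is injective and `1 ≤ 2^(n-1) p ≤ 2^(n-1) (2^n + 2m) ≤ 4^n`.  The second part is bounded by `StCountA`
(`miss a m ⊆ miss a (4^n)` as `m ≤ 4^n`), the third by `StCountB` (`p ≤ 2^n + 2m ≤ 2 * 2^n`). -/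

set_option autoImplicit false

namespace Pool.Agent.Helper12.Hof

open Finset

private lemma miss_mono {a : ℕ → ℕ} {x y : ℕ} (h : x ≤ y) : miss a x ⊆ miss a y := by
  classical
  unfold miss
  exact Finset.filter_subset_filter _ (Finset.Icc_subset_Icc le_rfl h)

theorem stComb_of (h1 : StCountA) (h2 : StCountB) (h3 : StSplit) : StComb := by
  classical
  intro a m n R J Y P ha hm hm1 hn1 hR hgap h8 hcard hJ hJ1 hJ2 hY hY2 hP
  set P1 := P.filter (fun p => Missing a (2 ^ (n - 1) * p)) with hP1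
  set P2 := P.filter (fun p => TypeA a m n p) with hP2
  set P3 := P.filter (fun p => TypeB a m n p) with hP3
  have hsub : P ⊆ P1 ∪ P2 ∪ P3 := by
    intro p hp
    obtain ⟨q1, q2, q3, q4⟩ := hP p hp
    by_cases hmis : Missing a (2 ^ (n - 1) * p)
    · exact mem_union_left _ (mem_union_left _ (mem_filter.2 ⟨hp, hmis⟩))
    · rcases h3 a m n p ha hm hm1 hn1 h8 q1 q2 q3 q4 hmis with h | h
      · exact mem_union_left _ (mem_union_right _ (mem_filter.2 ⟨hp, h⟩))
      · exact mem_union_right _ (mem_filter.2 ⟨hp, h⟩)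
  have hm4 : m ≤ 4 ^ n := by
    have : 2 ^ n ≤ 4 ^ n := Nat.pow_le_pow_left (by norm_num) n
    omega
  have hmc : (miss a m).card ≤ (miss a (4 ^ n)).card := card_le_card (miss_mono hm4)
  have c1 : P1.card ≤ (miss a (4 ^ n)).card := by
    refine card_le_card_of_injOn (fun p => 2 ^ (n - 1) * p) ?_ ?_
    · intro p hp
      obtain ⟨hp1, hp2⟩ := mem_filter.1 (mem_coe.1 hp)
      obtain ⟨q1, q2, q3, q4⟩ := hP p hp1
      have hb : 2 ^ (n - 1) * p ≤ 4 ^ n := by
        have e1 : p ≤ 2 ^ (n + 1) := by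
          rw [pow_succ]
          omega
        calc 2 ^ (n - 1) * p ≤ 2 ^ (n - 1) * 2 ^ (n + 1) := Nat.mul_le_mul_left _ e1
          _ = 2 ^ (2 * n) := by
              rw [← pow_add]
              congr 1
              omega
          _ = 4 ^ n := by
              rw [pow_mul]
              norm_num
      have hpos : 1 ≤ 2 ^ (n - 1) * p := Nat.succ_le_of_lt (Nat.mul_pos (by positivity) q1.pos)
      apply mem_coe.2
      unfold miss
      exact mem_filter.2 ⟨mem_Icc.2 ⟨hpos, hb⟩, hp2⟩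
    · intro p _ q _ hpq
      exact Nat.eq_of_mul_eq_mul_left (by positivity) hpq
  have hlog : (0 : ℝ) ≤ 1024 * J * (1 + Real.log J) ^ 64 := by
    have : 0 ≤ Real.log J := Real.log_natCast_nonneg J
    positivity
  have c2 : (P2.card : ℝ) ≤ (miss a (4 ^ n)).card * (1024 * J * (1 + Real.log J) ^ 64) := by
    have h4 := h1 a m n J P2 ha hm hm1 (by omega)
      (lt_of_le_of_lt (Nat.mul_le_mul_left _ (Nat.mul_le_mul_left _ hmc)) hcard) hJ hJ1 hJ2
      (fun p hp => by
        obtain ⟨hp1, hp2⟩ := mem_filter.1 hp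
        obtain ⟨q1, q2, q3, q4⟩ := hP p hp1
        exact ⟨q3, q4, hp2⟩)
    refine h4.trans (mul_le_mul_of_nonneg_right ?_ hlog)
    exact_mod_cast hmc
  have c3 : P3.card ≤ (miss a (4 ^ n)).card ^ 2 * (3 * Y + 1) :=
    h2 a m n R Y P3 ha hm1 hR hgap hY hY2 (fun p hp => by
      obtain ⟨hp1, hp2⟩ := mem_filter.1 hp
      obtain ⟨q1, q2, q3, q4⟩ := hP p hp1
      exact ⟨by omega, hp2⟩)
  have c4 : P.card ≤ P1.card + P2.card + P3.card :=
    (card_le_card hsub).trans ((card_union_le _ _).trans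
      (Nat.add_le_add_right (card_union_le _ _) _))
  have c4' : (P.card : ℝ) ≤ P1.card + P2.card + P3.card := by exact_mod_cast c4
  have c1' : (P1.card : ℝ) ≤ (miss a (4 ^ n)).card := by exact_mod_cast c1
  have c3' : (P3.card : ℝ) ≤ (miss a (4 ^ n)).card ^ 2 * (3 * Y + 1) := by exact_mod_cast c3
  linarith

end Pool.Agent.Helper12.Hof
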