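import Mathlib
import Pool.Agent.Helper12.Hof.Basic

/-! H-6: the number of windows of type A.

PROOF.  Let `q = 2^n`.  For `p ∈ P` choose `α, β` as in `TypeA` and put `y = β + 1 - α`, `z = α + β`,
`E = mE a α m`.  Then `y z = q p + 2 E`, `z - y = 2 α - 1` lies in `[1, 2m - 1]`, `y + z = 2 β + 1` is
odd, and `0 < E` (`m` itself is a term), `E ≤ m * card (miss a m)`, so `0 < 2 E < q`.
BOUNDS.  `y^2 < y z = q p + 2E < q (q + 2m) + q ≤ (q + 2m)^2`, so `y < q + 2m` and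
`z < q + 4m`.  As `p > q - 2m ≥ 0`: `z^2 > y z ≥ q p > q (q - 2m) ≥ (q - 2m)^2`, so `z > q - 2m` and
`y > q - 4m`.  With the integers `η = y - q`, `ζ = z - q` we have `|η|, |ζ| ≤ 4m`, `η + ζ` odd and
`η ζ - 2E = y z - q (y + z) + q^2 - 2E = q (p - y - z + q)`, divisible by `q`.
COUNT.  The numbers `E` take at most `card (miss a m)` values: `mE a α m = mE a α' m` where `α'` is
the least missing number `≥ α` (it is `≤ m`), so `E` is in the image of `miss a m` under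
`α' ↦ mE a α' m`.  For each value `E` apply `StPairs` with `c = 2E`, `Y = 4m`
(`(4m)^2 + 2E ≤ 16 m^2 + 2^n ≤ J 2^n`).  The map `p ↦ (E, η, ζ)` is injective, because
`q p = (q + η)(q + ζ) - 2E`. -/

set_option autoImplicit false

namespace Pool.Agent.Helper12.Hof

open Finset

/-- the partial sums of missing numbers take few values -/
theorem mE_mem_image (a : ℕ → ℕ) (m α : ℕ) (hm : Missing a m) (hα : 1 ≤ α) (hαm : α ≤ m) :
    mE a α m ∈ (miss a m).image (fun α' => mE a α' m) := by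
  classical
  set S : Finset ℕ := (Finset.Icc α m).filter (fun x => Missing a x) with hS
  have hmS : m ∈ S := by
    rw [hS, Finset.mem_filter, Finset.mem_Icc]
    exact ⟨⟨hαm, le_rfl⟩, hm⟩
  have hne : S.Nonempty := ⟨m, hmS⟩
  have h1 := S.min'_mem hne
  have h2 : ∀ x ∈ S, S.min' hne ≤ x := fun x hx => S.min'_le x hx
  set b := S.min' hne with hb
  have h3 : (α ≤ b ∧ b ≤ m) ∧ Missing a b := by
    rw [hS, Finset.mem_filter, Finset.mem_Icc] at h1
    exact h1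
  refine Finset.mem_image.2 ⟨b, ?_, ?_⟩
  · unfold miss
    rw [Finset.mem_filter, Finset.mem_Icc]
    exact ⟨⟨hα.trans h3.1.1, h3.1.2⟩, h3.2⟩
  · unfold mE
    refine Finset.sum_congr ?_ (fun _ _ => rfl)
    ext x
    rw [Finset.mem_filter, Finset.mem_Icc, Finset.mem_filter, Finset.mem_Icc]
    constructor
    · rintro ⟨⟨h4, h5⟩, h6⟩
      exact ⟨⟨h3.1.1.trans h4, h5⟩, h6⟩
    · rintro ⟨⟨h4, h5⟩, h6⟩
      exact ⟨⟨h2 x (by rw [hS, Finset.mem_filter, Finset.mem_Icc]; exact ⟨⟨h4, h5⟩, h6⟩), h5⟩, h6⟩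

theorem mE_le (a : ℕ → ℕ) (m α : ℕ) (hα : 1 ≤ α) : mE a α m ≤ m * (miss a m).card := by
  classical
  unfold mE miss
  refine (Finset.sum_le_card_nsmul _ _ m (fun x hx => ?_)).trans ?_
  · rw [Finset.mem_filter, Finset.mem_Icc] at hx
    exact hx.1.2
  · rw [smul_eq_mul, mul_comm]
    refine Nat.mul_le_mul_left _ (Finset.card_le_card (fun x hx => ?_))
    rw [Finset.mem_filter, Finset.mem_Icc] at hx ⊢
    exact ⟨⟨hα.trans hx.1.1, hx.1.2⟩, hx.2⟩

lemma le_mE (a : ℕ → ℕ) (m α : ℕ) (hm : Missing a m) (hαm : α ≤ m) : m ≤ mE a α m := by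
  classical
  unfold mE
  refine Finset.single_le_sum (f := fun x : ℕ => x) (fun _ _ => Nat.zero_le _) ?_
  rw [Finset.mem_filter, Finset.mem_Icc]
  exact ⟨⟨hαm, le_rfl⟩, hm⟩

/-- The arithmetic of one window. -/
lemma windowA (q m p E α β : ℤ) (hm : 1 ≤ m) (hq : 2 * m ≤ q) (hE : 2 * E < q) (hE0 : 0 < E)
    (hp1 : p < q + 2 * m) (hp2 : q < p + 2 * m) (hα : 1 ≤ α) (hαm : α ≤ m) (hβ : m < β)
    (h : (β + 1 - α) * (α + β) = q * p + 2 * E) :
    (-(4 * m) ≤ β + 1 - α - q ∧ β + 1 - α - q ≤ 4 * m) ∧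
    (-(4 * m) ≤ α + β - q ∧ α + β - q ≤ 4 * m) := by
  have hz : α + β = (β + 1 - α) + (2 * α - 1) := by ring
  have h1 : β + 1 - α < q + 2 * m := by
    by_contra hcon
    push Not at hcon
    nlinarith [mul_le_mul hcon (show q + 2 * m ≤ α + β by linarith) (by linarith) (by linarith : (0:ℤ) ≤ β + 1 - α),
      mul_le_mul_of_nonneg_left (show p ≤ q + 2 * m - 1 by linarith) (show 0 ≤ q by linarith)]
  have h2 : q - 2 * m < α + β := by
    by_contra hcon
    push Not at hcon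
    nlinarith [mul_le_mul (show β + 1 - α ≤ q - 2 * m by linarith) hcon (by linarith) (by linarith : (0:ℤ) ≤ q - 2 * m),
      mul_le_mul_of_nonneg_left (show q - 2 * m + 1 ≤ p by linarith) (show 0 ≤ q by linarith)]
  refine ⟨⟨by linarith, by linarith⟩, ⟨by linarith, by linarith⟩⟩

theorem stCountA_of (h : StPairs) : StCountA := by
  classical
  intro a m n J P hH hm hm1 hmq hcard hJ h1 h2 hP
  set B : ℝ := 1024 * J * (1 + Real.log J) ^ 64 with hB
  have hB0 : 0 ≤ B := by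
    have : 0 ≤ Real.log J := Real.log_nonneg (by exact_mod_cast hJ)
    positivity
  set I : Finset ℕ := (miss a m).image (fun α' => mE a α' m) with hI
  set W : ℕ → Finset (ℤ × ℤ) := fun E => ((Icc (-(4 * (m:ℤ))) (4 * m)) ×ˢ (Icc (-(4 * (m:ℤ))) (4 * m))).filter
    (fun w : ℤ × ℤ => Odd (w.1 + w.2) ∧ (2 : ℤ) ^ n ∣ w.1 * w.2 - (2 * (E : ℤ))) with hW
  have hIE : ∀ E ∈ I, 0 < E ∧ 2 * E < 2 ^ n := by
    intro E hE
    rw [hI, Finset.mem_image] at hE
    obtain ⟨α', hα', rfl⟩ := hE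
    unfold miss at hα'
    rw [Finset.mem_filter, Finset.mem_Icc] at hα'
    have h3 := le_mE a m α' hm hα'.1.2
    have h4 := mE_le a m α' hα'.1.1
    exact ⟨by omega, by omega⟩
  have hWc : ∀ E ∈ I, ((W E).card : ℝ) ≤ B := by
    intro E hE
    obtain ⟨h3, h4⟩ := hIE E hE
    have h4' : (2 * (E : ℤ)) < 2 ^ n := by exact_mod_cast h4
    have h1' : 16 * (m : ℤ) ^ 2 + 2 ^ n ≤ J * 2 ^ n := by exact_mod_cast h1
    have h5 := h n J (2 * (E : ℤ)) (4 * m) hJ (by omega) h4' (by omega) (by nlinarith) h2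
    exact h5
  choose α β hα1 hα2 hβ hwin using fun (p : ℕ) (hp : p ∈ P) => (hP p hp).2.2
  let g : ℕ → (Σ _ : ℕ, ℤ × ℤ) := fun p => if hp : p ∈ P then
    ⟨mE a (α p hp) m, (((β p hp : ℤ) + 1 - α p hp - 2 ^ n), ((α p hp : ℤ) + β p hp - 2 ^ n))⟩ else ⟨0, 0⟩
  have hwinZ : ∀ (p : ℕ) (hp : p ∈ P), ((β p hp : ℤ) + 1 - α p hp) * (α p hp + β p hp) =
      2 ^ n * p + 2 * (mE a (α p hp) m : ℤ) := by
    intro p hp
    have h3 := hwin p hp
    have h4 : α p hp ≤ β p hp + 1 := by have := hα2 p hp; have := hβ p hp; omega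
    have h5 : ((β p hp + 1 - α p hp : ℕ) : ℤ) = (β p hp : ℤ) + 1 - α p hp := by
      push_cast [Nat.cast_sub h4]; ring
    have h6 := congrArg (fun x : ℕ => (x : ℤ)) h3
    push_cast at h6
    rw [Nat.cast_sub h4] at h6
    push_cast at h6
    exact h6
  have hmaps : ∀ p ∈ P, g p ∈ I.sigma W := by
    intro p hp
    have hgp : g p = ⟨mE a (α p hp) m, (((β p hp : ℤ) + 1 - α p hp - 2 ^ n), ((α p hp : ℤ) + β p hp - 2 ^ n))⟩ := by
      simp only [g]; rw [dif_pos hp]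
    rw [hgp, Finset.mem_sigma]
    have hE := mE_mem_image a m (α p hp) hm (hα1 p hp) (hα2 p hp)
    refine ⟨hE, ?_⟩
    obtain ⟨h3, h4⟩ := hIE _ hE
    have hw := hwinZ p hp
    have h4' : (2 * (mE a (α p hp) m : ℤ)) < 2 ^ n := by exact_mod_cast h4
    have h5 := windowA (2 ^ n) m p (mE a (α p hp) m) (α p hp) (β p hp) (by omega) (by exact_mod_cast hmq)
      h4' (by omega) (by exact_mod_cast (hP p hp).1) (by exact_mod_cast (hP p hp).2.1)
      (by exact_mod_cast hα1 p hp) (by exact_mod_cast hα2 p hp) (by exact_mod_cast hβ p hp) hw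
    simp only [hW]
    rw [Finset.mem_filter, Finset.mem_product, Finset.mem_Icc, Finset.mem_Icc]
    refine ⟨⟨h5.1, h5.2⟩, ?_, ?_⟩
    · exact ⟨(β p hp : ℤ) - 2 ^ n, by ring⟩
    · refine ⟨(p : ℤ) - (2 * β p hp + 1) + 2 ^ n, ?_⟩
      linear_combination hw
  have hinj : Set.InjOn g (P : Set ℕ) := by
    intro p hp p' hp' hpp
    have hp1 : p ∈ P := hp
    have hp2 : p' ∈ P := hp'
    have hgp : g p = ⟨mE a (α p hp1) m, (((β p hp1 : ℤ) + 1 - α p hp1 - 2 ^ n), ((α p hp1 : ℤ) + β p hp1 - 2 ^ n))⟩ := by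
      simp only [g]; rw [dif_pos hp1]
    have hgp' : g p' = ⟨mE a (α p' hp2) m, (((β p' hp2 : ℤ) + 1 - α p' hp2 - 2 ^ n), ((α p' hp2 : ℤ) + β p' hp2 - 2 ^ n))⟩ := by
      simp only [g]; rw [dif_pos hp2]
    rw [hgp, hgp'] at hpp
    have e1 := congrArg Sigma.fst hpp
    have e2 : (((β p hp1 : ℤ) + 1 - α p hp1 - 2 ^ n), ((α p hp1 : ℤ) + β p hp1 - 2 ^ n)) =
      ((((β p' hp2 : ℤ) + 1 - α p' hp2 - 2 ^ n), ((α p' hp2 : ℤ) + β p' hp2 - 2 ^ n)) : ℤ × ℤ) := by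
      have := (Sigma.mk.inj_iff.1 hpp).2
      exact eq_of_heq this
    have e3 := congrArg Prod.fst e2
    have e4 := congrArg Prod.snd e2
    simp only at e1 e3 e4
    have h3 := hwinZ p hp1
    have h4 := hwinZ p' hp2
    have e5 : ((β p hp1 : ℤ) + 1 - α p hp1) = ((β p' hp2 : ℤ) + 1 - α p' hp2) := by linarith
    have e6 : ((α p hp1 : ℤ) + β p hp1) = ((α p' hp2 : ℤ) + β p' hp2) := by linarith
    have e7 : (mE a (α p hp1) m : ℤ) = (mE a (α p' hp2) m : ℤ) := by rw [e1]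
    rw [e5, e6, h4, e7] at h3
    have h5 : (2:ℤ) ^ n * p' = 2 ^ n * p := by linarith
    have h6 : (p' : ℤ) = p := mul_left_cancel₀ (by positivity) h5
    exact_mod_cast h6.symm
  have hcardle : P.card ≤ (I.sigma W).card := Finset.card_le_card_of_injOn g hmaps hinj
  rw [Finset.card_sigma] at hcardle
  calc (P.card : ℝ) ≤ ((∑ E ∈ I, (W E).card : ℕ) : ℝ) := by exact_mod_cast hcardle
    _ = ∑ E ∈ I, ((W E).card : ℝ) := by push_cast; rfl
    _ ≤ ∑ E ∈ I, B := Finset.sum_le_sum hWc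
    _ = I.card * B := by rw [Finset.sum_const, nsmul_eq_mul]
    _ ≤ (miss a m).card * B := by
      refine mul_le_mul_of_nonneg_right ?_ hB0
      exact_mod_cast Finset.card_image_le

end Pool.Agent.Helper12.Hof
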