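import Mathlib
import Pool.Agent.Helper12.Hof.CountA

/-! H-7: the number of windows of type B.

PROOF.  Let `q = 2^n`, `B = card (miss a (4^n))`.  For `p ∈ P` choose `α, β, m'` as in `TypeB` and put
`y = β + 1 - α`, `z = α + β`, `E = mE a α m'`.  Then `y z = q p + 2 E`, `y ≥ 2`, `y + z` is odd and
`|z - 2 m'| ≤ y - 1` (because `α ≤ m' ≤ β`).
`m'` is missing and larger than `m`, so `m' > R m`.  `E ≤ B m'` (`mE_le` and monotonicity of `miss`).
`y m' ≤ y z = q p + 2E ≤ 2 * 4^n + 2 B m'` and `2 * 4^n ≤ (Y - 2B) (R m) ≤ (Y - 2B) m'`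
(`Y ≥ 2B` follows from the hypothesis and `R m ≥ 1`), so `y ≤ Y`.
COUNT.  The pair `(m', E)` lies in the image of `miss a (4^n) ×ˢ miss a (4^n)` under
`(m', α') ↦ (m', mE a α' m')` (`mE_mem_image` of CountA), so there are at most `B^2` pairs.
For a fixed pair `(m', E)` there are at most `3 Y + 1` possible `p`: `p` is determined by `(y, z)`.
If `y` is odd: `z` is determined by `y` (two such `z` differ by a multiple of `q`, as
`y (z - z₁) = q (p - p₁)` and `y` is odd, and by at most `2 (y - 1) < 2 Y ≤ q`), so at most `Y` pairs.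
If `y` is even then `z` is odd, and `y` is determined by `z` (`q ∣ y - y₁`, `|y - y₁| < Y ≤ q`), where
`z` is in `[2m' - Y + 1, 2m' + Y - 1]`, so at most `2 Y + 1` pairs. -/

set_option autoImplicit false

namespace Pool.Agent.Helper12.Hof

open Finset

private lemma aux_eq (n : ℕ) (u v w p p1 : ℤ) (hu : Odd u) (h : u * (v - w) = 2 ^ n * (p - p1))
    (hlt : |v - w| < 2 ^ n) : p = p1 := by
  have h2 : IsCoprime ((2 : ℤ) ^ n) u := by
    apply IsCoprime.pow_left
    obtain ⟨r, hr⟩ := hu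
    exact ⟨-r, 1, by rw [hr]; ring⟩
  have h3 : (2 : ℤ) ^ n ∣ v - w := h2.dvd_of_dvd_mul_left ⟨p - p1, h⟩
  have h4 : v - w = 0 := Int.eq_zero_of_abs_lt_dvd h3 hlt
  rw [h4, mul_zero] at h
  have h5 : (2 : ℤ) ^ n ≠ 0 := by positivity
  rcases mul_eq_zero.1 h.symm with h6 | h6
  · exact absurd h6 h5
  · linarith

/-- the count for a fixed largest missing number and a fixed partial sum -/
theorem count_fixed (n Y m' E : ℕ) (P : Finset ℕ) (hY : 2 * Y ≤ 2 ^ n)
    (hP : ∀ p ∈ P, ∃ y z : ℕ, 1 ≤ y ∧ y ≤ Y ∧ Odd (y + z) ∧ z < 2 * m' + y ∧ 2 * m' < z + y ∧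
      y * z = 2 ^ n * p + 2 * E) : P.card ≤ 3 * Y + 1 := by
  classical
  have hY' : (2 : ℤ) * Y ≤ 2 ^ n := by exact_mod_cast hY
  set P1 := P.filter (fun p => ∃ y z : ℕ, 1 ≤ y ∧ y ≤ Y ∧ Odd y ∧ z < 2 * m' + y ∧
    2 * m' < z + y ∧ y * z = 2 ^ n * p + 2 * E) with hP1
  set P2 := P.filter (fun p => ∃ y z : ℕ, 1 ≤ y ∧ y ≤ Y ∧ Odd z ∧ z < 2 * m' + y ∧
    2 * m' < z + y ∧ y * z = 2 ^ n * p + 2 * E) with hP2
  have hsub : P ⊆ P1 ∪ P2 := by
    intro p hp
    obtain ⟨y, z, q1, q2, q3, q4, q5, q6⟩ := hP p hp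
    rcases Nat.even_or_odd y with hy | hy
    · refine mem_union_right _ (mem_filter.2 ⟨hp, y, z, q1, q2, ?_, q4, q5, q6⟩)
      rcases Nat.even_or_odd z with hz | hz
      · exact absurd (hy.add hz) (Nat.not_even_iff_odd.2 q3)
      · exact hz
    · exact mem_union_left _ (mem_filter.2 ⟨hp, y, z, q1, q2, hy, q4, q5, q6⟩)
  have c1 : P1.card ≤ Y := by
    have h : P1.card ≤ (Icc 1 Y).card := by
      refine Finset.card_le_card_of_forall_subsingleton (fun p y => ∃ z : ℕ, Odd y ∧ y ≤ Y ∧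
        z < 2 * m' + y ∧ 2 * m' < z + y ∧ y * z = 2 ^ n * p + 2 * E) ?_ ?_
      · intro p hp
        obtain ⟨_, y, z, q1, q2, q3, q4, q5, q6⟩ := mem_filter.1 hp
        exact ⟨y, mem_Icc.2 ⟨q1, q2⟩, z, q3, q2, q4, q5, q6⟩
      · rintro y _ p ⟨_, z, q3, q2, q4, q5, q6⟩ p1 ⟨_, z1, r3, r2, r4, r5, r6⟩
        have e1 : (y : ℤ) * z = 2 ^ n * p + 2 * E := by exact_mod_cast q6
        have e2 : (y : ℤ) * z1 = 2 ^ n * p1 + 2 * E := by exact_mod_cast r6
        have h5 := aux_eq n y z z1 p p1 (by exact_mod_cast q3) (by linarith) (by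
          rw [abs_lt]
          constructor <;> omega)
        exact_mod_cast h5
    simpa using h
  have c2 : P2.card ≤ 2 * Y + 1 := by
    have h : P2.card ≤ (range (2 * Y + 1)).card := by
      refine Finset.card_le_card_of_forall_subsingleton (fun p w => ∃ y z : ℕ, Odd z ∧ 1 ≤ y ∧
        y ≤ Y ∧ z < 2 * m' + y ∧ 2 * m' < z + y ∧ y * z = 2 ^ n * p + 2 * E ∧
        z + Y = w + 2 * m') ?_ ?_
      · intro p hp
        obtain ⟨_, y, z, q1, q2, q3, q4, q5, q6⟩ := mem_filter.1 hp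
        exact ⟨z + Y - 2 * m', mem_range.2 (by omega), y, z, q3, q1, q2, q4, q5, q6, by omega⟩
      · rintro w _ p ⟨_, y, z, q3, q1, q2, q4, q5, q6, q7⟩ p1 ⟨_, y1, z1, r3, r1, r2, r4, r5, r6, r7⟩
        have hz : z = z1 := by omega
        subst hz
        have e1 : (y : ℤ) * z = 2 ^ n * p + 2 * E := by exact_mod_cast q6
        have e2 : (y1 : ℤ) * z = 2 ^ n * p1 + 2 * E := by exact_mod_cast r6
        have h5 := aux_eq n z y y1 p p1 (by exact_mod_cast q3) (by linarith) (by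
          rw [abs_lt]
          constructor <;> omega)
        exact_mod_cast h5
    simpa using h
  calc P.card ≤ (P1 ∪ P2).card := card_le_card hsub
    _ ≤ P1.card + P2.card := card_union_le _ _
    _ ≤ Y + (2 * Y + 1) := Nat.add_le_add c1 c2
    _ = 3 * Y + 1 := by ring

private lemma miss_mono' {a : ℕ → ℕ} {x y : ℕ} (h : x ≤ y) : miss a x ⊆ miss a y := by
  classical
  unfold miss
  exact Finset.filter_subset_filter _ (Finset.Icc_subset_Icc le_rfl h)

theorem stCountB : StCountB := by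
  classical
  intro a m n R Y P _ hm1 hR hgap hY hY2 hP
  set B := (miss a (4 ^ n)).card with hB
  let f : ℕ × ℕ → Finset ℕ := fun κ => P.filter (fun p => ∃ y z : ℕ, 1 ≤ y ∧ y ≤ Y ∧
    Odd (y + z) ∧ z < 2 * κ.1 + y ∧ 2 * κ.1 < z + y ∧ y * z = 2 ^ n * p + 2 * mE a κ.2 κ.1)
  have hf : ∀ κ, (f κ).card ≤ 3 * Y + 1 := by
    intro κ
    refine count_fixed n Y κ.1 (mE a κ.2 κ.1) _ hY2 ?_
    intro p hp
    exact (mem_filter.1 hp).2
  have hsub : P ⊆ (miss a (4 ^ n) ×ˢ miss a (4 ^ n)).biUnion f := by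
    intro p hp
    obtain ⟨hp2, α, β, m', w1, w2, w3, w4, w5, w6, w7, w8⟩ := hP p hp
    obtain ⟨α', hα', hE⟩ := mem_image.1 (mE_mem_image a m' α w7 w1 w2)
    have hE' : mE a α' m' = mE a α m' := hE
    rw [mem_biUnion]
    refine ⟨(m', α'), mem_product.2 ⟨?_, miss_mono' w5 hα'⟩, mem_filter.2 ⟨hp,
      β + 1 - α, α + β, by omega, ?_, ⟨β, by omega⟩, ?_, ?_, ?_⟩⟩
    · unfold miss
      exact mem_filter.2 ⟨mem_Icc.2 ⟨by omega, w5⟩, w7⟩
    · have hr : R * m < m' := by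
        by_contra hcon
        push Not at hcon
        exact hgap m' w3 hcon w7
      have hr1 : 1 ≤ R * m := Nat.one_le_iff_ne_zero.2 (by
        have := Nat.mul_pos hR hm1
        omega)
      have hE2 : mE a α m' ≤ m' * B :=
        (mE_le a m' α w1).trans (Nat.mul_le_mul_left _ (card_le_card (miss_mono' w5)))
      have h4 : 2 ^ n * p ≤ 2 * 4 ^ n := by
        calc 2 ^ n * p ≤ 2 ^ n * (2 * 2 ^ n) := Nat.mul_le_mul_left _ hp2
          _ = 2 * (2 * 2) ^ n := by rw [mul_pow]; ring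
          _ = 2 * 4 ^ n := by norm_num
      have h5 : (β + 1 - α) * m' ≤ 2 * 4 ^ n + 2 * (m' * B) := by
        calc (β + 1 - α) * m' ≤ (β + 1 - α) * (α + β) := Nat.mul_le_mul_left _ (by omega)
          _ = 2 ^ n * p + 2 * mE a α m' := w8
          _ ≤ 2 * 4 ^ n + 2 * (m' * B) := Nat.add_le_add h4 (Nat.mul_le_mul_left _ hE2)
      have h6 : 2 * B ≤ Y := by
        have h7 : (2 * B) * (R * m) ≤ Y * (R * m) := by
          have : (2 * B) * (R * m) = 2 * (B * (R * m)) := by ring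
          omega
        exact Nat.le_of_mul_le_mul_right h7 hr1
      obtain ⟨D, hD⟩ := Nat.exists_eq_add_of_le h6
      have h8 : 2 * 4 ^ n ≤ D * (R * m) := by
        rw [hD] at hY
        have : (2 * B + D) * (R * m) = 2 * (B * (R * m)) + D * (R * m) := by ring
        omega
      have h9 : D * (R * m) ≤ D * m' := Nat.mul_le_mul_left _ hr.le
      have h10 : (β + 1 - α) * m' ≤ Y * m' := by
        rw [hD]
        have : (2 * B + D) * m' = 2 * (m' * B) + D * m' := by ring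
        omega
      exact Nat.le_of_mul_le_mul_right h10 (by omega)
    · show α + β < 2 * m' + (β + 1 - α)
      omega
    · show 2 * m' < α + β + (β + 1 - α)
      omega
    · show (β + 1 - α) * (α + β) = 2 ^ n * p + 2 * mE a α' m'
      rw [hE']
      exact w8
  calc P.card ≤ ((miss a (4 ^ n) ×ˢ miss a (4 ^ n)).biUnion f).card := card_le_card hsub
    _ ≤ ∑ κ ∈ miss a (4 ^ n) ×ˢ miss a (4 ^ n), (f κ).card := card_biUnion_le
    _ ≤ ∑ _κ ∈ miss a (4 ^ n) ×ˢ miss a (4 ^ n), (3 * Y + 1) :=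
        Finset.sum_le_sum fun κ _ => hf κ
    _ = B ^ 2 * (3 * Y + 1) := by
        rw [Finset.sum_const, card_product, smul_eq_mul, hB]
        ring

end Pool.Agent.Helper12.Hof
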