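import Mathlib
import Pool.Agent.Helper12.Hof.Defs

/-! H-4: the divisor function in an arithmetic progression.

PROOF.  For `|j| ≤ J` put `n_j = |c + j q|`.  It is not `0` (`0 < c < q`) and `n_j ≤ (J+1) q ≤ J^3`,
so `n_j^2 ≤ J^6`.  By `StLandreau` with `y = J`, exponent `6`, there is `a ∣ n_j`, `a ≤ J`, with
`d(n_j) ≤ 64 d(a)^6`, so `d(n_j) ≤ ∑_{a ≤ J, a ∣ n_j} 64 d(a)^6`.  Sum over `j` and exchange:
`∑_j d(n_j) ≤ 64 ∑_{a ≤ J} d(a)^6 #{|j| ≤ J : a ∣ c + j q}`.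
For `a` not coprime to `q` there is no such `j` (a common prime would divide `c`); for `a` coprime to
`q` the `j` form one residue class modulo `a`, so their number in the `2J+1` consecutive integers is
at most `(2J+1)/a + 1 ≤ 4 J / a` (since `a ≤ J`).  Hence the sum is at most
`256 J ∑_{a ≤ J} d(a)^6 / a ≤ 256 J (1 + log J)^64` by `StDivMoment` with `r = 6`. -/

set_option autoImplicit false

namespace Pool.Agent.Helper12.Hof

open Finset

/-- the `j` with `a ∣ c + j q` -/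
lemma card_progression (q J a : ℕ) (c : ℤ) (ha : 1 ≤ a) (haJ : a ≤ J)
    (hcq : IsCoprime c (q : ℤ)) :
    ((((Icc (-(J : ℤ)) J).filter (fun j => a ∣ (c + j * q).natAbs)).card : ℕ) : ℝ) ≤
      4 * J / a := by
  set S := (Icc (-(J : ℤ)) J).filter (fun j => a ∣ (c + j * q).natAbs) with hS
  have haZ : (0 : ℤ) < a := by exact_mod_cast ha
  have haR : (0 : ℝ) < a := by exact_mod_cast ha
  have haJR : (a : ℝ) ≤ J := by exact_mod_cast haJ
  have hmem : ∀ j ∈ S, (a : ℤ) ∣ c + j * q := by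
    intro j hj
    have := (Finset.mem_filter.mp hj).2
    exact Int.natCast_dvd.mpr this
  -- the residues agree
  have hcong : ∀ j ∈ S, ∀ j' ∈ S, (a : ℤ) ∣ j - j' := by
    intro j hj j' hj'
    have h1 : (a : ℤ) ∣ (j - j') * q := by
      have := dvd_sub (hmem j hj) (hmem j' hj')
      have e : (c + j * q) - (c + j' * q) = (j - j') * (q : ℤ) := by ring
      rwa [e] at this
    have hcop : IsCoprime (a : ℤ) (q : ℤ) := by
      obtain ⟨k, hk⟩ := hmem j hj
      -- `c = a k - j q`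
      obtain ⟨u, v, huv⟩ := hcq
      refine ⟨u * k, v - u * j, ?_⟩
      have : c = a * k - j * q := by linarith
      rw [this] at huv
      linear_combination huv
    exact hcop.dvd_of_dvd_mul_right h1
  have hinj : Set.InjOn (fun j : ℤ => j / (a : ℤ)) (S : Set ℤ) := by
    intro j hj j' hj' h
    have h1 : j / (a : ℤ) = j' / (a : ℤ) := h
    have h2 : j % (a : ℤ) = j' % (a : ℤ) := by
      have h5 : j' ≡ j [ZMOD (a : ℤ)] := Int.modEq_iff_dvd.mpr (hcong j hj j' hj')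
      exact h5.symm
    have h3 := Int.mul_ediv_add_emod j a
    have h4 := Int.mul_ediv_add_emod j' a
    rw [← h3, ← h4, h1, h2]
  have hmaps : ∀ j ∈ S, j / (a : ℤ) ∈ Icc ((-(J : ℤ)) / a) ((J : ℤ) / a) := by
    intro j hj
    have h := Finset.mem_Icc.mp (Finset.mem_filter.mp hj).1
    exact Finset.mem_Icc.mpr ⟨Int.ediv_le_ediv haZ h.1, Int.ediv_le_ediv haZ h.2⟩
  have hcard : S.card ≤ (Icc ((-(J : ℤ)) / a) ((J : ℤ) / a)).card :=
    Finset.card_le_card_of_injOn _ hmaps hinj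
  rw [Int.card_Icc] at hcard
  have hup : (((J : ℤ) / a : ℤ) : ℝ) ≤ J / a := by
    rw [le_div_iff₀ haR]
    exact_mod_cast Int.ediv_mul_le (J : ℤ) haZ.ne'
  have hlo : -(J : ℝ) / a - 1 ≤ (((-(J : ℤ)) / a : ℤ) : ℝ) := by
    have h := Int.lt_ediv_add_one_mul_self (-(J : ℤ)) haZ
    have h' : (-(J : ℝ)) < ((((-(J : ℤ)) / a : ℤ) : ℝ) + 1) * a := by exact_mod_cast h
    have h3 : -(J : ℝ) / a < (((-(J : ℤ)) / a : ℤ) : ℝ) + 1 := by
      rw [div_lt_iff₀ haR]; exact h'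
    linarith
  have hone : (1 : ℝ) ≤ J / a := by
    rw [le_div_iff₀ haR, one_mul]; exact haJR
  have hcardR : (S.card : ℝ) ≤ (((J : ℤ) / a + 1 - (-(J : ℤ)) / a).toNat : ℝ) := by
    exact_mod_cast hcard
  have hnn : (0 : ℤ) ≤ (J : ℤ) / a + 1 - (-(J : ℤ)) / a := by
    have h1 : (0 : ℤ) ≤ (J : ℤ) / a := Int.ediv_nonneg (by positivity) haZ.le
    have h2 : (-(J : ℤ)) / a ≤ 0 := by
      have h6 := Int.ediv_le_ediv haZ (show -(J : ℤ) ≤ 0 by simp)
      simpa using h6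
    omega
  have hto : (((J : ℤ) / a + 1 - (-(J : ℤ)) / a).toNat : ℝ) =
      (((J : ℤ) / a : ℤ) : ℝ) + 1 - (((-(J : ℤ)) / a : ℤ) : ℝ) := by
    have h := Int.toNat_of_nonneg hnn
    have h' : ((((J : ℤ) / a + 1 - (-(J : ℤ)) / a).toNat : ℤ) : ℝ) =
        (((J : ℤ) / a + 1 - (-(J : ℤ)) / a : ℤ) : ℝ) := by rw [h]
    push_cast at h' ⊢
    exact h'
  rw [hto] at hcardR
  have e1 : -(J : ℝ) / a = -((J : ℝ) / a) := by ring
  have e2 : 4 * (J : ℝ) / a = 4 * ((J : ℝ) / a) := by ring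
  rw [e2]
  rw [e1] at hlo
  linarith

theorem stDivAP_of (h1 : StLandreau) (h2 : StDivMoment) : StDivAP := by
  intro q J c hJ hq hc0 hcq hcop hJq
  have hJR : (0 : ℝ) ≤ J := by positivity
  -- a small divisor with many divisors
  have key : ∀ j ∈ Icc (-(J : ℤ)) J, ∃ a : ℕ, a ∣ (c + j * q).natAbs ∧ a ≤ J ∧ 1 ≤ a ∧
      (c + j * q).natAbs.divisors.card ≤ 2 ^ 6 * a.divisors.card ^ 6 := by
    intro j hj
    obtain ⟨hj1, hj2⟩ := Finset.mem_Icc.mp hj
    have hqZ : (1 : ℤ) ≤ q := by exact_mod_cast hq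
    have hne : c + j * q ≠ 0 := by
      intro h
      have hd : (q : ℤ) ∣ c := ⟨-j, by linarith⟩
      have := Int.le_of_dvd hc0 hd
      omega
    have hpos : 1 ≤ (c + j * q).natAbs := Int.natAbs_pos.mpr hne
    have hle : (c + j * q).natAbs ≤ J ^ 3 := by
      refine le_trans ?_ hJq
      have h3 : |c + j * q| ≤ ((J : ℤ) + 1) * q := by
        rw [abs_le]
        constructor
        · nlinarith
        · nlinarith
      have h4 : (((c + j * q).natAbs : ℕ) : ℤ) ≤ (((J + 1) * q : ℕ) : ℤ) := by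
        rw [Int.natCast_natAbs]
        push_cast
        exact h3
      exact_mod_cast h4
    have hsq : (c + j * q).natAbs ^ 2 ≤ J ^ 6 := by
      calc (c + j * q).natAbs ^ 2 ≤ (J ^ 3) ^ 2 := Nat.pow_le_pow_left hle 2
        _ = J ^ 6 := by ring
    obtain ⟨a, ha1, ha2, ha3⟩ := h1 6 J _ hJ hpos hsq
    exact ⟨a, ha1, ha2, Nat.pos_of_dvd_of_pos ha1 hpos, ha3⟩
  have step1 : ∀ j ∈ Icc (-(J : ℤ)) J, (((c + j * q).natAbs.divisors.card : ℕ) : ℝ) ≤
      ∑ a ∈ Icc 1 J, if a ∣ (c + j * q).natAbs then 64 * (a.divisors.card : ℝ) ^ 6 else 0 := by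
    intro j hj
    obtain ⟨a, ha1, ha2, ha3, ha4⟩ := key j hj
    have h3 : (((c + j * q).natAbs.divisors.card : ℕ) : ℝ) ≤ 64 * (a.divisors.card : ℝ) ^ 6 := by
      have : (((c + j * q).natAbs.divisors.card : ℕ) : ℝ) ≤
          ((2 ^ 6 * a.divisors.card ^ 6 : ℕ) : ℝ) := by exact_mod_cast ha4
      push_cast at this
      linarith
    refine h3.trans ?_
    have h4 : (if a ∣ (c + j * q).natAbs then 64 * (a.divisors.card : ℝ) ^ 6 else 0) =
        64 * (a.divisors.card : ℝ) ^ 6 := if_pos ha1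
    rw [← h4]
    refine Finset.single_le_sum
      (f := fun a : ℕ => if a ∣ (c + j * q).natAbs then 64 * (a.divisors.card : ℝ) ^ 6 else 0)
      ?_ (Finset.mem_Icc.mpr ⟨ha3, ha2⟩)
    intro b _
    show (0 : ℝ) ≤ if b ∣ (c + j * q).natAbs then 64 * (b.divisors.card : ℝ) ^ 6 else 0
    split_ifs
    · positivity
    · exact le_rfl
  calc ∑ j ∈ Icc (-(J : ℤ)) J, (((c + j * q).natAbs.divisors.card : ℕ) : ℝ)
      ≤ ∑ j ∈ Icc (-(J : ℤ)) J, ∑ a ∈ Icc 1 J,
          (if a ∣ (c + j * q).natAbs then 64 * (a.divisors.card : ℝ) ^ 6 else 0) :=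
        Finset.sum_le_sum step1
    _ = ∑ a ∈ Icc 1 J, ∑ j ∈ Icc (-(J : ℤ)) J,
          (if a ∣ (c + j * q).natAbs then 64 * (a.divisors.card : ℝ) ^ 6 else 0) :=
        Finset.sum_comm
    _ = ∑ a ∈ Icc 1 J, ((((Icc (-(J : ℤ)) J).filter
          (fun j => a ∣ (c + j * q).natAbs)).card : ℕ) : ℝ) * (64 * (a.divisors.card : ℝ) ^ 6) := by
        refine Finset.sum_congr rfl (fun a _ => ?_)
        rw [← Finset.sum_filter, Finset.sum_const, nsmul_eq_mul]
    _ ≤ ∑ a ∈ Icc 1 J, (4 * J / a) * (64 * (a.divisors.card : ℝ) ^ 6) := by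
        refine Finset.sum_le_sum (fun a ha => ?_)
        obtain ⟨ha1, ha2⟩ := Finset.mem_Icc.mp ha
        exact mul_le_mul_of_nonneg_right (card_progression q J a c ha1 ha2 hcop) (by positivity)
    _ = 256 * J * ∑ a ∈ Icc 1 J, ((a.divisors.card : ℝ) ^ 6) / a := by
        rw [Finset.mul_sum]
        refine Finset.sum_congr rfl (fun a _ => ?_)
        ring
    _ ≤ 256 * J * (1 + Real.log J) ^ 64 := by
        have := h2 6 J hJ
        norm_num at this
        exact mul_le_mul_of_nonneg_left this (by positivity)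

end Pool.Agent.Helper12.Hof
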