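import Mathlib
import Pool.Agent.Helper12.Hof.Defs
import Pool.Agent.Helper6.SW.MassAll
import Pool.Agent.Helper51.SW.Tent

/-! H-1a: the error integral of the smoothed prime number theorem, uniformly in the width
`V ≤ 1` (adapted from `error_bound` in Helper6/SW/MassAll.lean). -/

set_option autoImplicit false

namespace Pool.Agent.Helper12.Hof

open Finset MeasureTheory Pool.Agent.Helper6.SW Pool.Agent.Helper51.SW Pool.Agent.Helper1.SW

theorem isTentFT_wt (V : ℝ) (hV : 0 < V) : IsTentFT V (wt V) := by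
  refine ⟨wt_int V, wt_nonneg hV, fun v => ?_⟩
  have h1 : (fun t : ℝ => ((wt V t : ℝ) : ℂ) * Complex.exp (Complex.I * (t * v : ℝ))) =
      fun t : ℝ => ((wt V t * Real.cos (t * v) : ℝ) : ℂ) +
        Complex.I * ((wt V t * Real.sin (t * v) : ℝ) : ℂ) := by
    funext t
    rw [mul_comm Complex.I, Complex.exp_mul_I]
    push_cast
    ring
  rw [h1, integral_add (wt_cos_int V v).ofReal ((wt_sin_int V v).ofReal.const_mul _),
    integral_const_mul]
  have h2 : ∫ t, ((wt V t * Real.cos (t * v) : ℝ) : ℂ) = ((tent V v : ℝ) : ℂ) := by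
    rw [← wt_cos_integral hV v]
    exact integral_ofReal
  have h3 : ∫ t, ((wt V t * Real.sin (t * v) : ℝ) : ℂ) = ((0 : ℝ) : ℂ) := by
    rw [← wt_sin_zero V v]
    exact integral_ofReal
  rw [h2, h3]
  simp

theorem wt_le (V t : ℝ) (hV : 0 < V) (hV1 : V ≤ 1) : wt V t ≤ (5 / (2 * kap)) / V / (1 + t ^ 2) := by
  have hk := kap_pos
  have h1 : V ^ 2 * gk (V * t) ≤ (5 / 2) / (1 + t ^ 2) := by
    have h2 := gk_le (V * t)
    have h3 : V ^ 2 * gk (V * t) ≤ V ^ 2 * ((5 / 2) / (1 + (V * t) ^ 2)) :=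
      mul_le_mul_of_nonneg_left h2 (by positivity)
    refine h3.trans ?_
    rw [← mul_div_assoc, div_le_div_iff₀ (by positivity) (by positivity)]
    have h4 : V ^ 2 ≤ 1 := by nlinarith
    nlinarith [sq_nonneg t, sq_nonneg V]
  have h5 : wt V t = (kap * V)⁻¹ * (V ^ 2 * gk (V * t)) := by
    unfold wt
    rw [scale_eq]
  rw [h5]
  calc (kap * V)⁻¹ * (V ^ 2 * gk (V * t)) ≤ (kap * V)⁻¹ * ((5 / 2) / (1 + t ^ 2)) :=
        mul_le_mul_of_nonneg_left h1 (by positivity)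
    _ = (5 / (2 * kap)) / V / (1 + t ^ 2) := by
        field_simp

theorem stErrU_of (hLD : StZLD) (hCp : StZCompact) (hTr : StZTransform) : StErrU := by
  intro k
  obtain ⟨C2, hC2, hLD⟩ := hLD k
  obtain ⟨C3, hCp⟩ := hCp k
  obtain ⟨m, hm⟩ : ∃ m, m = 11 * (k + 1) := ⟨_, rfl⟩
  have hmpos : 0 < m := by omega
  have hkap := kap_pos
  obtain ⟨Q, hQ⟩ : ∃ Q : ℝ, Q = C2 * ((2 * m : ℝ) ^ m * 3) + |C3| := ⟨_, rfl⟩
  have hQ0 : 0 ≤ Q := by rw [hQ]; positivity
  refine ⟨(5 / (2 * kap)) * Q * ∫ t : ℝ, (1 + t ^ 2) ^ (-(3 / 4) : ℝ), ?_⟩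
  intro V X hV hV1 hX
  obtain ⟨C1, hC1⟩ : ∃ C1 : ℝ, C1 = (5 / (2 * kap)) / V := ⟨_, rfl⟩
  have hC10 : 0 ≤ C1 := by rw [hC1]; positivity
  have hw := isTentFT_wt V hV
  have hwb : ∀ t, wt V t ≤ C1 / (1 + t ^ 2) := fun t => by rw [hC1]; exact wt_le V t hV hV1
  obtain ⟨K, hK⟩ : ∃ K : ℝ, K = C1 * Q := ⟨_, rfl⟩
  have hK0 : 0 ≤ K := by rw [hK]; positivity
  have hgoal : (5 / (2 * kap)) * Q * (∫ t : ℝ, (1 + t ^ 2) ^ (-(3 / 4) : ℝ)) / V =
      K * ∫ t : ℝ, (1 + t ^ 2) ^ (-(3 / 4) : ℝ) := by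
    rw [hK, hC1]; ring
  rw [hgoal]
  have hX0 : 0 < X := lt_of_lt_of_le (Real.exp_pos _) hX
  have hL2 : 2 ≤ Real.log X := (Real.le_log_iff_exp_le hX0).2 hX
  have hX1 : 1 < X := by
    have := Real.add_one_le_exp (2 : ℝ)
    linarith
  refine (hTr V (wt V) hV hw k X hX1).trans ?_
  rw [← integral_const_mul]
  apply integral_mono_of_nonneg
  · exact Filter.Eventually.of_forall fun t => mul_nonneg (hw.2.1 t) (norm_nonneg _)
  · exact integrable_34.const_mul K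
  · refine Filter.Eventually.of_forall fun t => ?_
    have hpos : 0 < 1 + t ^ 2 := by positivity
    have hx0 : 0 < 1 / Real.log X := by positivity
    have hx1 : 1 / Real.log X ≤ 1 / 2 := one_div_le_one_div_of_le (by norm_num) hL2
    have h14 : (1 : ℝ) ≤ (1 + t ^ 2) ^ (1 / 4 : ℝ) :=
      Real.one_le_rpow (by nlinarith [sq_nonneg t]) (by norm_num)
    have hnorm : ‖iteratedDeriv k EZ (1 + (1 / Real.log X : ℝ) + Complex.I * (-t : ℝ))‖ ≤
        Q * (1 + t ^ 2) ^ (1 / 4 : ℝ) := by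
      rw [hQ]
      have hA : 0 ≤ C2 * ((2 * m : ℝ) ^ m * 3) := by positivity
      rcases le_or_gt 2 |t| with ht | ht
      · have h1 := hLD (1 / Real.log X) (-t) hx0 hx1 (by rwa [abs_neg])
        have h2 := ell_le 1 le_rfl (-t)
        rw [abs_neg, Nat.cast_one, Real.log_one, add_zero, one_mul] at h2
        have h3 := ell_nonneg 1 le_rfl (-t)
        have h4 := log_pow_le m hmpos t
        rw [← hm] at h1
        calc _ ≤ C2 * ell 1 (-t) ^ m := h1
          _ ≤ C2 * Real.log (|t| + 3) ^ m := by gcongr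
          _ ≤ C2 * ((2 * m : ℝ) ^ m * 3 * (1 + t ^ 2) ^ (1 / 4 : ℝ)) := by gcongr
          _ = (C2 * ((2 * m : ℝ) ^ m * 3)) * (1 + t ^ 2) ^ (1 / 4 : ℝ) := by ring
          _ ≤ _ := by
              apply mul_le_mul_of_nonneg_right _ (by positivity)
              linarith [abs_nonneg C3]
      · have h1 := hCp (1 / Real.log X) (-t) hx0 hx1 (by rw [abs_neg]; exact ht.le)
        calc _ ≤ C3 := h1
          _ ≤ |C3| := le_abs_self _
          _ ≤ (C2 * ((2 * m : ℝ) ^ m * 3) + |C3|) * 1 := by linarith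
          _ ≤ _ := mul_le_mul_of_nonneg_left h14 (by positivity)
    calc wt V t * ‖iteratedDeriv k EZ (1 + (1 / Real.log X : ℝ) + Complex.I * (-t : ℝ))‖
        ≤ (C1 / (1 + t ^ 2)) * (Q * (1 + t ^ 2) ^ (1 / 4 : ℝ)) :=
          mul_le_mul (hwb t) hnorm (norm_nonneg _) (by positivity)
      _ = K * ((1 + t ^ 2) ^ (1 / 4 : ℝ) / (1 + t ^ 2)) := by
          rw [hK]; field_simp
      _ = K * (1 + t ^ 2) ^ (-(3 / 4) : ℝ) := by
          congr 1
          nth_rewrite 2 [← Real.rpow_one (1 + t ^ 2)]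
          rw [← Real.rpow_sub hpos]
          norm_num

end Pool.Agent.Helper12.Hof
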