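import Mathlib
import Pool.Agent.Helper12.Hof.Basic

/-! H-11: the theorem, from the dichotomy.

PROOF.  Let `m₀`, `C ≥ 1` be the constants of `StGap` (increase `C` to be at least `1`: for
`m ≥ 3` a larger `C` gives a weaker statement) and `c = 1 / (24 C)`.  Let `n` be large, `x = n`,
`ℓ = log x`.  By `card_miss`, `a n = n + card (miss a (a n)) ≥ n + card (miss a n)` (`a n ≥ n`), so it
is enough to show `B := card (miss a x) ≥ c ℓ / log ℓ`.  Suppose `B < c ℓ / log ℓ`, so `B < ℓ`.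
START: let `x₀ = ⌊x^(1/32)⌋₊`.  By `gap` there is a missing `μ₀` with
`x₀ < μ₀ ≤ 2 (x₀ (x₀+1))^2 ≤ 8 x₀^4 ≤ x^(1/4)` for large `x`.
STEP: if `μ` is missing with `x₀ < μ ≤ x^(1/3)` (`μ ≥ m₀` and `μ ≥ x^(1/64)` for large `x`) then
`(log μ)^2 ≥ (ℓ/64)^2 ≥ ℓ > B ≥ card (miss a (μ^3))` (`μ^3 ≤ x`), so `StGap` gives a missing `μ'` with
`μ < μ' ≤ μ (log μ)^C ≤ μ ℓ^C`.
ITERATION: by induction on `i`, as long as `x^(1/4) ℓ^(C i) ≤ x^(1/3) ℓ^C` there is a missing `μ` with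
`x₀ < μ ≤ x^(1/4) ℓ^(C i)` and `i + 1 ≤ card (miss a μ)`.  (If the bound for `i` is `≤ x^(1/3)`, the
step gives the statement for `i+1`: `miss a μ'` contains `miss a μ` and `μ'`.)
END: take `i = ⌊ℓ / (12 C log ℓ)⌋₊`: then `C i log ℓ ≤ ℓ/12`, so `x^(1/4) ℓ^(C i) ≤ x^(1/3) ≤ x` and
`B ≥ i + 1 > ℓ / (12 C log ℓ)`, a contradiction. -/

set_option autoImplicit false

namespace Pool.Agent.Helper12.Hof

open Finset

lemma miss_mono {a : ℕ → ℕ} {X Y : ℕ} (h : X ≤ Y) : miss a X ⊆ miss a Y := by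
  classical
  intro y hy
  simp only [miss, Finset.mem_filter, Finset.mem_Icc] at hy ⊢
  exact ⟨⟨hy.1.1, hy.1.2.trans h⟩, hy.2⟩

lemma card_miss_succ {a : ℕ → ℕ} {m m' i : ℕ} (h1 : m < m') (h2 : Missing a m')
    (h3 : i ≤ (miss a m).card) : i + 1 ≤ (miss a m').card := by
  classical
  have hnot : m' ∉ miss a m := by
    simp only [miss, Finset.mem_filter, Finset.mem_Icc]
    rintro ⟨⟨_, h4⟩, _⟩
    omega
  have hsub : insert m' (miss a m) ⊆ miss a m' := by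
    intro y hy
    rw [Finset.mem_insert] at hy
    rcases hy with rfl | hy
    · simp only [miss, Finset.mem_filter, Finset.mem_Icc]
      exact ⟨⟨by omega, le_rfl⟩, h2⟩
    · exact miss_mono h1.le hy
  have h4 := Finset.card_le_card hsub
  rw [Finset.card_insert_of_notMem hnot] at h4
  omega

theorem stFinal_of (h : StGap) : StFinal := by
  obtain ⟨m₀, C, hC⟩ := h
  set C' : ℕ := max C 1 with hC'
  have hC'1 : 1 ≤ C' := le_max_right _ _
  have hC'R : (1 : ℝ) ≤ (C' : ℝ) := by exact_mod_cast hC'1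
  set K : ℝ := 1024 + 32 * ((m₀ : ℝ) + 1) with hK
  refine ⟨1 / (12 * C'), by positivity, ⌈Real.exp K⌉₊, ?_⟩
  intro a ha n hn
  have hm0 : (0 : ℝ) ≤ (m₀ : ℝ) := Nat.cast_nonneg _
  have hxK : Real.exp K ≤ (n : ℝ) := (Nat.le_ceil _).trans (by exact_mod_cast hn)
  have hxpos : (0 : ℝ) < n := (Real.exp_pos _).trans_le hxK
  set ℓ : ℝ := Real.log n with hℓ
  have hxe : Real.exp ℓ = n := Real.exp_log hxpos
  have hKℓ : K ≤ ℓ := by
    rw [hℓ]; exact (Real.le_log_iff_exp_le hxpos).2 hxK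
  have hℓ1024 : 1024 ≤ ℓ := by rw [hK] at hKℓ; linarith
  have hℓ32 : 32 * ((m₀ : ℝ) + 1) ≤ ℓ := by rw [hK] at hKℓ; linarith
  have hℓpos : 0 < ℓ := by linarith
  set lam : ℝ := Real.log ℓ with hlam
  have hlam1 : 1 ≤ lam := by
    rw [hlam, Real.le_log_iff_exp_le hℓpos]
    have := Real.exp_one_lt_d9
    linarith
  have hn1 : 1 ≤ n := by
    have : (0:ℝ) < n := hxpos
    exact_mod_cast this
  have hcard := card_miss ha n hn1
  have hge := ge_self ha n hn1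
  have hB : (miss a n).card + n ≤ a n := by
    have := Finset.card_le_card (miss_mono (a := a) hge)
    omega
  have hBR : ((miss a n).card : ℝ) + n ≤ a n := by exact_mod_cast hB
  suffices hsuff : 1 / (12 * (C' : ℝ)) * (ℓ / lam) ≤ ((miss a n).card : ℝ) by linarith
  by_contra hcon
  push Not at hcon
  have hBℓ : ((miss a n).card : ℝ) < ℓ := by
    refine hcon.trans_le ?_
    have h1 : ℓ / lam ≤ ℓ := div_le_self hℓpos.le hlam1
    have h2 : 1 / (12 * (C' : ℝ)) ≤ 1 := by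
      rw [div_le_one (by positivity)]; linarith
    calc 1 / (12 * (C' : ℝ)) * (ℓ / lam) ≤ 1 * ℓ := by
          apply mul_le_mul h2 h1 (by positivity) (by norm_num)
      _ = ℓ := one_mul _
  set x₀ : ℕ := ⌊Real.exp (ℓ / 32)⌋₊ with hx₀
  have hx₀le : (x₀ : ℝ) ≤ Real.exp (ℓ / 32) := Nat.floor_le (Real.exp_pos _).le
  have hx₀lt : Real.exp (ℓ / 32) < (x₀ : ℝ) + 1 := Nat.lt_floor_add_one _
  have hx₀m : m₀ ≤ x₀ := by
    rw [hx₀]
    apply Nat.le_floor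
    have := Real.add_one_le_exp (ℓ / 32)
    linarith
  have hx₀1 : 1 ≤ x₀ := by
    rw [hx₀]
    apply Nat.le_floor
    have := Real.add_one_le_exp (ℓ / 32)
    push_cast
    linarith
  -- the start
  obtain ⟨μ₀, hμ1, hμ2, hμ3⟩ := gap ha x₀ hx₀1
  have hμ4 : (μ₀ : ℝ) ≤ Real.exp (ℓ / 4) := by
    have h1 : (μ₀ : ℝ) ≤ 2 * ((x₀ : ℝ) * (x₀ + 1)) ^ 2 := by exact_mod_cast hμ2
    have hx1R : (1 : ℝ) ≤ (x₀ : ℝ) := by exact_mod_cast hx₀1
    have h2 : (x₀ : ℝ) * (x₀ + 1) ≤ 2 * (x₀ : ℝ) ^ 2 := by nlinarith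
    have h3 : 2 * ((x₀ : ℝ) * (x₀ + 1)) ^ 2 ≤ 2 * (2 * (x₀ : ℝ) ^ 2) ^ 2 := by
      have := pow_le_pow_left₀ (by positivity : (0:ℝ) ≤ (x₀ : ℝ) * (x₀ + 1)) h2 2
      linarith
    have h4 : (x₀ : ℝ) ^ 4 ≤ Real.exp (ℓ / 8) := by
      have := pow_le_pow_left₀ (by positivity : (0:ℝ) ≤ (x₀ : ℝ)) hx₀le 4
      rw [← Real.exp_nat_mul] at this
      have e : ((4 : ℕ) : ℝ) * (ℓ / 32) = ℓ / 8 := by push_cast; ring
      rwa [e] at this
    have h5 : (8 : ℝ) ≤ Real.exp (ℓ / 8) := by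
      have := Real.add_one_le_exp (ℓ / 8)
      linarith
    have h6 : Real.exp (ℓ / 4) = Real.exp (ℓ / 8) * Real.exp (ℓ / 8) := by
      rw [← Real.exp_add]; congr 1; ring
    calc (μ₀ : ℝ) ≤ 2 * (2 * (x₀ : ℝ) ^ 2) ^ 2 := h1.trans h3
      _ = 8 * (x₀ : ℝ) ^ 4 := by ring
      _ ≤ Real.exp (ℓ / 8) * Real.exp (ℓ / 8) :=
          mul_le_mul h5 h4 (by positivity) (by positivity)
      _ = Real.exp (ℓ / 4) := h6.symm
  -- the step
  have hstep : ∀ μ : ℕ, Missing a μ → x₀ < μ → (μ : ℝ) ≤ Real.exp (ℓ / 3) →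
      ∃ μ' : ℕ, Missing a μ' ∧ μ < μ' ∧ (μ' : ℝ) ≤ μ * ℓ ^ C' := by
    intro μ hm hlt hle
    have hμR : (x₀ : ℝ) + 1 ≤ (μ : ℝ) := by exact_mod_cast hlt
    have hμpos : (0 : ℝ) < μ := by
      have : (0:ℝ) ≤ x₀ := Nat.cast_nonneg _
      linarith
    have hlog1 : ℓ / 32 ≤ Real.log μ := by
      rw [Real.le_log_iff_exp_le hμpos]; linarith
    have hlog2 : Real.log μ ≤ ℓ := by
      rw [Real.log_le_iff_le_exp hμpos]
      refine hle.trans (Real.exp_le_exp.2 (by linarith))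
    have hcube : μ ^ 3 ≤ n := by
      have h1 := pow_le_pow_left₀ hμpos.le hle 3
      rw [← Real.exp_nat_mul] at h1
      have e : ((3 : ℕ) : ℝ) * (ℓ / 3) = ℓ := by push_cast; ring
      rw [e, hxe] at h1
      exact_mod_cast h1
    rcases hC a ha μ (by omega) hm with h1 | ⟨μ', h1, h2, h3⟩
    · exfalso
      have h4 : ((miss a (μ ^ 3)).card : ℝ) ≤ ((miss a n).card : ℝ) := by
        exact_mod_cast Finset.card_le_card (miss_mono (a := a) hcube)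
      have h5 : (ℓ / 32) ^ 2 ≤ (Real.log μ) ^ 2 := pow_le_pow_left₀ (by positivity) hlog1 2
      have h6 : ℓ ≤ (ℓ / 32) ^ 2 := by nlinarith
      linarith
    · refine ⟨μ', h3, h1, h2.trans ?_⟩
      apply mul_le_mul_of_nonneg_left _ hμpos.le
      have h7 : (Real.log μ) ^ C ≤ ℓ ^ C :=
        pow_le_pow_left₀ ((by positivity : (0:ℝ) ≤ ℓ / 32).trans hlog1) hlog2 C
      exact h7.trans (pow_le_pow_right₀ (by linarith) (le_max_left _ _))
  -- the iteration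
  set I : ℕ := ⌊ℓ / (12 * C' * lam)⌋₊ with hI
  have hIle : (I : ℝ) ≤ ℓ / (12 * C' * lam) := Nat.floor_le (by positivity)
  have hIlt : ℓ / (12 * C' * lam) < (I : ℝ) + 1 := Nat.lt_floor_add_one _
  have hlampos : 0 < lam := by linarith
  have hpow : ∀ i : ℕ, i ≤ I → Real.exp (ℓ / 4) * ℓ ^ (C' * i) ≤ Real.exp (ℓ / 3) := by
    intro i hi
    have h1 : ℓ ^ (C' * i) = Real.exp ((C' * i : ℕ) * lam) := by
      rw [Real.exp_nat_mul, hlam, Real.exp_log hℓpos]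
    have h2 : ((C' * i : ℕ) : ℝ) * lam ≤ ℓ / 12 := by
      have h3 : (i : ℝ) ≤ ℓ / (12 * C' * lam) := le_trans (by exact_mod_cast hi) hIle
      rw [le_div_iff₀ (by positivity)] at h3
      push_cast
      nlinarith
    rw [h1, ← Real.exp_add]
    apply Real.exp_le_exp.2
    linarith
  have hiter : ∀ i : ℕ, i ≤ I → ∃ μ : ℕ, Missing a μ ∧ x₀ < μ ∧
      (μ : ℝ) ≤ Real.exp (ℓ / 4) * ℓ ^ (C' * i) ∧ i + 1 ≤ (miss a μ).card := by
    intro i
    induction i with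
    | zero =>
      intro _
      refine ⟨μ₀, hμ3, hμ1, by simpa using hμ4, ?_⟩
      have : (0 : ℕ) ≤ (miss a x₀).card := Nat.zero_le _
      exact card_miss_succ hμ1 hμ3 this
    | succ i ih =>
      intro hi
      obtain ⟨μ, h1, h2, h3, h4⟩ := ih (by omega)
      obtain ⟨μ', h5, h6, h7⟩ := hstep μ h1 h2 (h3.trans (hpow i (by omega)))
      refine ⟨μ', h5, h2.trans h6, ?_, card_miss_succ h6 h5 h4⟩
      calc (μ' : ℝ) ≤ μ * ℓ ^ C' := h7
        _ ≤ (Real.exp (ℓ / 4) * ℓ ^ (C' * i)) * ℓ ^ C' :=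
            mul_le_mul_of_nonneg_right h3 (by positivity)
        _ = Real.exp (ℓ / 4) * ℓ ^ (C' * (i + 1)) := by
            rw [mul_assoc, ← pow_add]; rfl
  obtain ⟨μ, h1, h2, h3, h4⟩ := hiter I le_rfl
  have hμn : μ ≤ n := by
    have h5 : (μ : ℝ) ≤ Real.exp ℓ :=
      (h3.trans (hpow I le_rfl)).trans (Real.exp_le_exp.2 (by linarith))
    rw [hxe] at h5
    exact_mod_cast h5
  have h5 : I + 1 ≤ (miss a n).card := h4.trans (Finset.card_le_card (miss_mono hμn))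
  have h6 : (I : ℝ) + 1 ≤ ((miss a n).card : ℝ) := by exact_mod_cast h5
  have h7 : 1 / (12 * (C' : ℝ)) * (ℓ / lam) = ℓ / (12 * C' * lam) := by
    field_simp
  rw [h7] at hcon
  linarith

end Pool.Agent.Helper12.Hof
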