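import Mathlib
import Pool.Agent.Helper12.Hof.Basic

/-! H-10: the dichotomy, from the combinatorial part and primes in short intervals.

PROOF.  Take `C = 220`.  Let `m` be a large missing number, `L = log m`, and suppose that
`card (miss a (m^3)) ≤ L^2` and that there is no missing `m'` with `m < m' ≤ m L^220`.  Let
`T = L^70`, and let `n` be the natural number with `T m ≤ 2^n < 2 T m`, `q = 2^n`.  Apply `StComb` with
`R = ⌊L^220⌋₊`, `J = ⌈16 m^2 / q⌉₊ + 1`, `Y = ⌈2 * 4^n / (R m)⌉₊ + 2 * B` where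
`B = card (miss a (4^n)) ≤ card (miss a (m^3)) ≤ L^2` (as `4^n < 4 T^2 m^2 ≤ m^3` for large `m`), and
`P` = the odd primes `p` with `|p - q| ≤ q / (log q)^71` (from `StShort` with `A = 71`, `X = q`).
Checks for large `m`: `q / (log q)^71 ≤ 2 T m / L^71 = 2 m / L < 2 m` (`log q ≥ L`), so
`|p - q| < 2m` for `p ∈ P`; `8 m ≤ q`; `2 m B ≤ 2 m L^2 < q`; `16 m^2 + q ≤ J q`;
`J ≤ 16 m / T + 2 ≤ 17 m / T`, and `J ≥ 16 m^2/q ≥ 8 m / T`, so `(J+1) q ≤ J^3` (the left side is at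
most `40 m^2`, the right side at least `(8m/T)^3`); `Y ≤ 8 T^2 m / R + 1 + 2 L^2 + 1 ≤ m / T` (since
`R ≥ T^3 * 8 * 2` for large `m`), so `2 Y ≤ q`.
`StComb` gives `card P ≤ L^2 + L^2 * 1024 * (17 m / T) * (1 + L)^64 + L^4 * (3 m / T + 1)`
`≤ m / L^3` for large `m` (`(1 + L)^64 ≤ 2^64 L^64`, exponents: `2 + 64 - 70 = -4`).
`StShort` gives (all these primes are odd, as `p ≥ q/2 > 2`)
`card P ≥ c q / (log q)^72 ≥ c T m / (2 L)^72 = c 2^(-72) m / L^2` (`log q ≤ 2 L`).  Contradiction for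
large `m`. -/

set_option autoImplicit false

namespace Pool.Agent.Helper12.Hof

open Finset

lemma miss_monoG {a : ℕ → ℕ} {X Y : ℕ} (h : X ≤ Y) : miss a X ⊆ miss a Y := by
  classical
  intro y hy
  simp only [miss, Finset.mem_filter, Finset.mem_Icc] at hy ⊢
  exact ⟨⟨hy.1.1, hy.1.2.trans h⟩, hy.2⟩

lemma powb {L : ℝ} (hL : 100 ≤ L) (k : ℝ) (a j : ℕ) (hk : k ≤ 100 ^ j) :
    k * L ^ a ≤ L ^ (a + j) := by
  have hL0 : 0 ≤ L := by linarith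
  have h1 : (100 : ℝ) ^ j ≤ L ^ j := pow_le_pow_left₀ (by norm_num) hL j
  calc k * L ^ a ≤ L ^ j * L ^ a := mul_le_mul_of_nonneg_right (hk.trans h1) (by positivity)
    _ = L ^ (a + j) := by rw [pow_add]; ring

lemma powk {L : ℝ} (hL : 100 ≤ L) (k : ℝ) (j : ℕ) (hk : k ≤ 100 ^ j) : k ≤ L ^ j :=
  hk.trans (pow_le_pow_left₀ (by norm_num) hL j)

lemma powm {L : ℝ} (hL : 100 ≤ L) {a b : ℕ} (h : a ≤ b) : L ^ a ≤ L ^ b :=
  pow_le_pow_right₀ (by linarith) h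

/-- the power of two -/
lemma choose_q {L m : ℝ} (hL : 100 ≤ L) (hm : L ^ 300 ≤ m) (hlog : Real.log m = L)
    (hmpos : 0 < m) : ∃ n : ℕ, 1 ≤ n ∧ L ^ 70 * m < (2 : ℝ) ^ n ∧ (2 : ℝ) ^ n ≤ 2 * (L ^ 70 * m) ∧
      m ≤ (2 : ℝ) ^ n ∧ L ≤ Real.log ((2 : ℝ) ^ n) ∧ Real.log ((2 : ℝ) ^ n) ≤ 2 * L := by
  have hL70 : (1 : ℝ) ≤ L ^ 70 := one_le_pow₀ (by linarith)
  have hm1 : 1 ≤ m := (one_le_pow₀ (by linarith) : (1:ℝ) ≤ L ^ 300).trans hm
  have hmT : m ≤ L ^ 70 * m := le_mul_of_one_le_left hmpos.le hL70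
  obtain ⟨k, hk1, hk2⟩ := exists_nat_pow_near (hm1.trans hmT) (by norm_num : (1 : ℝ) < 2)
  have hq2 : (2 : ℝ) ^ (k + 1) ≤ 2 * (L ^ 70 * m) := by
    rw [pow_succ]; linarith
  have hqm : m ≤ (2 : ℝ) ^ (k + 1) := hmT.trans hk2.le
  refine ⟨k + 1, by omega, hk2, hq2, hqm, ?_, ?_⟩
  · rw [← hlog]
    exact Real.log_le_log hmpos hqm
  · have h270 : 2 * L ^ 70 ≤ m := (powb hL 2 70 230 (by norm_num)).trans hm
    have h3 : (2 : ℝ) ^ (k + 1) ≤ m ^ 2 := by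
      calc (2 : ℝ) ^ (k + 1) ≤ 2 * (L ^ 70 * m) := hq2
        _ = 2 * L ^ 70 * m := by ring
        _ ≤ m * m := mul_le_mul_of_nonneg_right h270 hmpos.le
        _ = m ^ 2 := by ring
    have h4 := Real.log_le_log (by positivity) h3
    have h5 : Real.log (m ^ 2) = 2 * L := by
      rw [Real.log_pow, hlog]; push_cast; ring
    rw [h5] at h4
    exact h4

/-- facts on `u = m / L^70` -/
lemma u_facts {L m u : ℝ} (hL : 100 ≤ L) (hm : L ^ 300 ≤ m) (hum : u * L ^ 70 = m) :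
    2 ≤ u ∧ 6 * L ^ 2 ≤ u ∧ L ^ 140 ≤ u ∧ 17 * u ≤ m := by
  have hLpos : 0 < L := by linarith
  have h70 : 0 < L ^ 70 := by positivity
  have hle : ∀ z : ℝ, z * L ^ 70 ≤ m → z ≤ u := by
    intro z hz
    rw [← hum] at hz
    exact le_of_mul_le_mul_right hz h70
  have hu0 : 0 ≤ u := hle 0 (by
    have : (0:ℝ) ≤ L ^ 300 := by positivity
    linarith)
  refine ⟨hle 2 ((powb hL 2 70 230 (by norm_num)).trans hm), hle _ ?_, hle _ ?_, ?_⟩
  · calc 6 * L ^ 2 * L ^ 70 = 6 * L ^ 72 := by ring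
      _ ≤ L ^ (72 + 228) := powb hL 6 72 228 (by norm_num)
      _ ≤ m := hm
  · rw [← pow_add]
    exact (powm hL (by norm_num)).trans hm
  · rw [← hum]
    calc 17 * u ≤ L ^ 70 * u := mul_le_mul_of_nonneg_right (powk hL 17 70 (by norm_num)) hu0
      _ = u * L ^ 70 := by ring

/-- the choice of `J` -/
lemma choose_J {L m u q : ℝ} (hL : 100 ≤ L) (hm : L ^ 300 ≤ m) (hum : u * L ^ 70 = m)
    (hq1 : L ^ 70 * m < q) (hq2 : q ≤ 2 * (L ^ 70 * m)) :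
    ∃ J : ℕ, 1 ≤ J ∧ 16 * m ^ 2 + q ≤ J * q ∧ ((J : ℝ) + 1) * q ≤ (J : ℝ) ^ 3 ∧
      (J : ℝ) ≤ 17 * u := by
  obtain ⟨hu2, -, hu140, -⟩ := u_facts hL hm hum
  have hLpos : 0 < L := by linarith
  have hupos : 0 < u := by linarith
  have hmpos : 0 < m := by rw [← hum]; positivity
  have hqpos : 0 < q := lt_trans (by positivity) hq1
  have hmm : m ^ 2 = u * (L ^ 70 * m) := by
    rw [← mul_assoc, hum]; ring
  have hmq1 : 16 * m ^ 2 / q ≤ 16 * u := by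
    rw [div_le_iff₀ hqpos, hmm]
    have h4 : u * (L ^ 70 * m) ≤ u * q := mul_le_mul_of_nonneg_left hq1.le hupos.le
    linarith
  have hmq2 : 8 * u ≤ 16 * m ^ 2 / q := by
    rw [le_div_iff₀ hqpos, hmm]
    have h4 : u * q ≤ u * (2 * (L ^ 70 * m)) := mul_le_mul_of_nonneg_left hq2 hupos.le
    linarith
  have hmqq : 16 * m ^ 2 / q * q = 16 * m ^ 2 := by field_simp
  have h0 : 0 ≤ 16 * m ^ 2 / q := by positivity
  have hlo : 16 * m ^ 2 / q + 1 ≤ ((⌈16 * m ^ 2 / q⌉₊ + 1 : ℕ) : ℝ) := by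
    push_cast
    have := Nat.le_ceil (16 * m ^ 2 / q)
    linarith
  have hhi : ((⌈16 * m ^ 2 / q⌉₊ + 1 : ℕ) : ℝ) ≤ 16 * m ^ 2 / q + 2 := by
    push_cast
    have := Nat.ceil_lt_add_one h0
    linarith
  refine ⟨⌈16 * m ^ 2 / q⌉₊ + 1, by omega, ?_, ?_, ?_⟩
  · have := mul_le_mul_of_nonneg_right hlo hqpos.le
    rw [add_mul, hmqq, one_mul] at this
    exact this
  · have h7 : (8 * u) ^ 3 ≤ ((⌈16 * m ^ 2 / q⌉₊ + 1 : ℕ) : ℝ) ^ 3 :=
      pow_le_pow_left₀ (by positivity) (by linarith) 3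
    refine le_trans ?_ h7
    have h4 : (((⌈16 * m ^ 2 / q⌉₊ + 1 : ℕ) : ℝ) + 1) * q ≤ (16 * m ^ 2 / q + 3) * q :=
      mul_le_mul_of_nonneg_right (by linarith) hqpos.le
    refine h4.trans ?_
    rw [add_mul, hmqq]
    have h6 : L ^ 70 * m ≤ m * m := by
      apply mul_le_mul_of_nonneg_right _ hmpos.le
      exact (powm hL (by norm_num)).trans hm
    have h10 : m ^ 2 = u ^ 2 * L ^ 140 := by
      rw [← hum]; ring
    have h11 : u ^ 2 * L ^ 140 ≤ u ^ 2 * u := mul_le_mul_of_nonneg_left hu140 (by positivity)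
    have h12 : 0 ≤ u ^ 3 := by positivity
    have h13 : u ^ 2 * u = u ^ 3 := by ring
    have h14 : (8 * u) ^ 3 = 512 * u ^ 3 := by ring
    have h15 : m * m = m ^ 2 := by ring
    rw [h14]
    rw [h15] at h6
    rw [h13, ← h10] at h11
    linarith
  · linarith

/-- the choice of `Y` -/
lemma choose_Y {L m u q R : ℝ} {B : ℕ} (hL : 100 ≤ L) (hm : L ^ 300 ≤ m)
    (hum : u * L ^ 70 = m) (hq2 : q ≤ 2 * (L ^ 70 * m)) (hq0 : 0 < q)
    (hR : L ^ 220 / 2 ≤ R) (hB : (B : ℝ) ≤ L ^ 2) :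
    ∃ Y : ℕ, 2 * q ^ 2 + 2 * ((B : ℝ) * (R * m)) ≤ (Y : ℝ) * (R * m) ∧ (Y : ℝ) ≤ u := by
  obtain ⟨hu2, hu6, hu140, -⟩ := u_facts hL hm hum
  have hLpos : 0 < L := by linarith
  have hupos : 0 < u := by linarith
  have hmpos : 0 < m := by rw [← hum]; positivity
  have hRpos : 0 < R := lt_of_lt_of_le (by positivity) hR
  have hRm : 0 < R * m := by positivity
  have h0 : 0 ≤ 2 * q ^ 2 / (R * m) := by positivity
  refine ⟨⌈2 * q ^ 2 / (R * m)⌉₊ + 2 * B, ?_, ?_⟩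
  · push_cast
    have h4 := Nat.le_ceil (2 * q ^ 2 / (R * m))
    rw [div_le_iff₀ hRm] at h4
    rw [add_mul]
    linarith
  · push_cast
    have h3 := Nat.ceil_lt_add_one h0
    have h4 : 2 * q ^ 2 / (R * m) ≤ u / 2 := by
      rw [div_le_iff₀ hRm]
      have h5 : 32 * L ^ 210 ≤ L ^ 220 := powb hL 32 210 10 (by norm_num)
      have h6 : u / 2 * (16 * L ^ 210 * m) ≤ u / 2 * (R * m) := by
        apply mul_le_mul_of_nonneg_left _ (by positivity)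
        apply mul_le_mul_of_nonneg_right _ hmpos.le
        linarith
      have h8 : u / 2 * (16 * L ^ 210 * m) = 8 * L ^ 140 * m ^ 2 := by
        rw [← hum]; ring
      have hq22 : q ^ 2 ≤ 4 * L ^ 140 * m ^ 2 := by
        have := pow_le_pow_left₀ hq0.le hq2 2
        calc q ^ 2 ≤ (2 * (L ^ 70 * m)) ^ 2 := this
          _ = 4 * L ^ 140 * m ^ 2 := by ring
      linarith
    have h5 : 1 + 2 * L ^ 2 ≤ u / 2 := by
      have h6 : 1 ≤ L ^ 2 := one_le_pow₀ (by linarith)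
      linarith
    linarith

/-- the window -/
lemma win {L m q : ℝ} (hL : 100 ≤ L) (hmpos : 0 < m) (hq2 : q ≤ 2 * (L ^ 70 * m))
    (hlq : L ≤ Real.log q) : q / (Real.log q) ^ 71 < 2 * m := by
  have hLpos : 0 < L := by linarith
  have hlq0 : 0 < Real.log q := by linarith
  rw [div_lt_iff₀ (by positivity)]
  have h3 : L ^ 71 ≤ (Real.log q) ^ 71 := pow_le_pow_left₀ hLpos.le hlq 71
  have h4 : 2 * m * L ^ 71 ≤ 2 * m * (Real.log q) ^ 71 :=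
    mul_le_mul_of_nonneg_left h3 (by positivity)
  have h7 : 0 < L ^ 70 * m := by positivity
  have h8 : 2 * m * L ^ 71 = 2 * (L ^ 70 * m) * L := by ring
  have h9 : 2 * (L ^ 70 * m) * 1 < 2 * (L ^ 70 * m) * L :=
    mul_lt_mul_of_pos_left (by linarith) (by positivity)
  rw [h8] at h4
  linarith

/-- the upper bound -/
lemma upper {L u B J Y N : ℝ} (hL : 100 ≤ L) (hu : 0 < u) (hB0 : 0 ≤ B) (hB : B ≤ L ^ 2)
    (hJ1 : 1 ≤ J) (hJ : J ≤ 17 * u) (hlJ : Real.log J ≤ L) (hY0 : 0 ≤ Y) (hY : Y ≤ u)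
    (hN : N ≤ B + B * (1024 * J * (1 + Real.log J) ^ 64) + B ^ 2 * (3 * Y + 1)) :
    N ≤ L ^ 2 + (1024 * 17 * 2 ^ 64) * L ^ 66 * u + L ^ 4 * (3 * u + 1) := by
  have hLpos : 0 < L := by linarith
  have hlogJ0 : 0 ≤ Real.log J := Real.log_nonneg hJ1
  have hpow64 : (1 + Real.log J) ^ 64 ≤ (2 * L) ^ 64 :=
    pow_le_pow_left₀ (by linarith) (by linarith) 64
  have hU1 : 1024 * J * (1 + Real.log J) ^ 64 ≤ 1024 * (17 * u) * (2 * L) ^ 64 := by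
    apply mul_le_mul _ hpow64 (by positivity) (by positivity)
    linarith
  have hU2 : B * (1024 * J * (1 + Real.log J) ^ 64) ≤ L ^ 2 * (1024 * (17 * u) * (2 * L) ^ 64) :=
    mul_le_mul hB hU1 (by positivity) (by positivity)
  have hU3 : B ^ 2 * (3 * Y + 1) ≤ (L ^ 2) ^ 2 * (3 * u + 1) := by
    apply mul_le_mul (pow_le_pow_left₀ hB0 hB 2) (by linarith) (by positivity) (by positivity)
  have e1 : L ^ 2 * (1024 * (17 * u) * (2 * L) ^ 64) = (1024 * 17 * 2 ^ 64) * L ^ 66 * u := by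
    ring
  have e2 : (L ^ 2) ^ 2 * (3 * u + 1) = L ^ 4 * (3 * u + 1) := by ring
  rw [e1] at hU2
  rw [e2] at hU3
  linarith

/-- the lower bound -/
lemma lower {L m u q c N : ℝ} (hL : 100 ≤ L) (hc : 0 < c) (hu : 0 < u)
    (hum : u * L ^ 70 = m) (hq1 : L ^ 70 * m < q) (hlq1 : L ≤ Real.log q)
    (hlq2 : Real.log q ≤ 2 * L) (hN : c * q / (Real.log q) ^ (71 + 1) ≤ N) :
    c / 2 ^ 72 * L ^ 68 * u ≤ N := by
  refine le_trans ?_ hN
  have hLpos : 0 < L := by linarith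
  have hlq : 0 < Real.log q := by linarith
  have h3 : (Real.log q) ^ (71 + 1) ≤ (2 * L) ^ 72 := pow_le_pow_left₀ hlq.le hlq2 72
  rw [le_div_iff₀ (by positivity)]
  calc c / 2 ^ 72 * L ^ 68 * u * (Real.log q) ^ (71 + 1)
      ≤ c / 2 ^ 72 * L ^ 68 * u * (2 * L) ^ 72 := mul_le_mul_of_nonneg_left h3 (by positivity)
    _ = c * (L ^ 70 * (u * L ^ 70)) := by ring
    _ = c * (L ^ 70 * m) := by rw [hum]
    _ ≤ c * q := mul_le_mul_of_nonneg_left hq1.le hc.le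

/-- the contradiction -/
lemma contra {L u κ K N : ℝ} (hL : 100 ≤ L) (hu : 2 ≤ u) (hK : 1 ≤ K)
    (hκL : 4 * K ≤ κ * L ^ 2) (h1 : κ * L ^ 68 * u ≤ N)
    (h2 : N ≤ L ^ 2 + K * L ^ 66 * u + L ^ 4 * (3 * u + 1)) : False := by
  have hLpos : 0 < L := by linarith
  have hupos : 0 < u := by linarith
  have h66 : 0 < L ^ 66 * u := by positivity
  have hf1 : 4 * (K * (L ^ 66 * u)) ≤ κ * L ^ 68 * u := by
    have h3 := mul_le_mul_of_nonneg_right hκL h66.le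
    calc 4 * (K * (L ^ 66 * u)) = 4 * K * (L ^ 66 * u) := by ring
      _ ≤ κ * L ^ 2 * (L ^ 66 * u) := h3
      _ = κ * L ^ 68 * u := by ring
  have hf2 : L ^ 66 * u ≤ K * (L ^ 66 * u) := le_mul_of_one_le_left h66.le hK
  have hf3 : L ^ 2 ≤ L ^ 4 := powm hL (by norm_num)
  have hf4 : 5 * L ^ 4 * u ≤ L ^ 66 * u := by
    apply mul_le_mul_of_nonneg_right _ hupos.le
    exact powb hL 5 4 62 (by norm_num)
  have hf5 : L ^ 4 ≤ L ^ 4 * u := le_mul_of_one_le_right (by positivity) (by linarith)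
  have e1 : K * L ^ 66 * u = K * (L ^ 66 * u) := by ring
  have e2 : L ^ 4 * (3 * u + 1) = 3 * (L ^ 4 * u) + L ^ 4 := by ring
  have e3 : 5 * L ^ 4 * u = 5 * (L ^ 4 * u) := by ring
  rw [e1, e2] at h2
  rw [e3] at hf4
  linarith

/-- everything for one `m`, in real form -/
lemma one_m (h2 : StComb) {c X₀ : ℝ} (hc : 0 < c)
    (hX : ∀ X : ℝ, X₀ ≤ X → c * X / (Real.log X) ^ (71 + 1) ≤
      (((Icc 1 ⌊2 * X⌋₊).filter (fun p : ℕ => p.Prime ∧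
        |(p : ℝ) - X| ≤ X / (Real.log X) ^ 71)).card : ℝ))
    {a : ℕ → ℕ} (ha : IsHof a) {m : ℕ} {L : ℝ} (hmiss : Missing a m) (hm1 : 1 ≤ m)
    (hL : 100 ≤ L) (hpm : L ^ 300 ≤ (m : ℝ)) (hlog : Real.log m = L) (hLX : X₀ ≤ L)
    (hD : 4 * (1024 * 17 * 2 ^ 64) ≤ c / 2 ^ 72 * L ^ 2)
    (hcon1 : ((miss a (m ^ 3)).card : ℝ) ≤ L ^ 2)
    (hcon2 : ∀ m' : ℕ, m < m' → (m' : ℝ) ≤ m * L ^ 220 → ¬ Missing a m') : False := by
  have hmpos : (0 : ℝ) < m := by exact_mod_cast hm1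
  have hLpos : 0 < L := by linarith
  obtain ⟨n, hn1, hq1, hq2, hqm, hlq1, hlq2⟩ := choose_q hL hpm hlog hmpos
  obtain ⟨u, hum⟩ : ∃ u : ℝ, u * L ^ 70 = m := ⟨m / L ^ 70, by field_simp⟩
  obtain ⟨hu2, -, -, hu17⟩ := u_facts hL hpm hum
  have hupos : 0 < u := by linarith
  have h4nm : 4 ^ n ≤ m ^ 3 := by
    have h3 : ((4 : ℝ)) ^ n ≤ (m : ℝ) ^ 3 := by
      have h4n : ((4 : ℝ)) ^ n = ((2 : ℝ) ^ n) ^ 2 := by
        rw [← pow_mul, mul_comm n 2, pow_mul]; norm_num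
      rw [h4n]
      have h4 : 4 * L ^ 140 ≤ (m : ℝ) := (powb hL 4 140 160 (by norm_num)).trans hpm
      calc ((2 : ℝ) ^ n) ^ 2 ≤ (2 * (L ^ 70 * m)) ^ 2 := pow_le_pow_left₀ (by positivity) hq2 2
        _ = 4 * L ^ 140 * (m : ℝ) ^ 2 := by ring
        _ ≤ m * (m : ℝ) ^ 2 := mul_le_mul_of_nonneg_right h4 (by positivity)
        _ = (m : ℝ) ^ 3 := by ring
    exact_mod_cast h3
  obtain ⟨B, hB⟩ : ∃ B : ℕ, B = (miss a (4 ^ n)).card := ⟨_, rfl⟩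
  have hBL : (B : ℝ) ≤ L ^ 2 := by
    have h3 : B ≤ (miss a (m ^ 3)).card := by
      rw [hB]
      exact Finset.card_le_card (miss_monoG h4nm)
    have h4 : (B : ℝ) ≤ ((miss a (m ^ 3)).card : ℝ) := by exact_mod_cast h3
    exact h4.trans hcon1
  obtain ⟨R, hR1, hR3⟩ : ∃ R : ℕ, (R : ℝ) ≤ L ^ 220 ∧ L ^ 220 / 2 ≤ (R : ℝ) := by
    refine ⟨⌊L ^ 220⌋₊, Nat.floor_le (by positivity), ?_⟩
    have h3 : L ^ 220 < (⌊L ^ 220⌋₊ : ℝ) + 1 := Nat.lt_floor_add_one _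
    have h4 : (2 : ℝ) ≤ L ^ 220 := powk hL 2 220 (by norm_num)
    linarith
  have hR4 : 1 ≤ R := by
    have h4 : (2 : ℝ) ≤ L ^ 220 := powk hL 2 220 (by norm_num)
    have h5 : (1 : ℝ) ≤ (R : ℝ) := by linarith
    exact_mod_cast h5
  obtain ⟨J, hJ1, hJ2, hJ3, hJ4⟩ := choose_J hL hpm hum hq1 hq2
  obtain ⟨Y, hY1, hY2⟩ := choose_Y (R := (R : ℝ)) (B := B) hL hpm hum hq2 (by positivity) hR3 hBL
  have hwin := win hL hmpos hq2 hlq1
  have h870 : (8 : ℝ) ≤ L ^ 70 := powk hL 8 70 (by norm_num)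
  have h8q : 8 * (m : ℝ) ≤ (2 : ℝ) ^ n :=
    (mul_le_mul_of_nonneg_right h870 hmpos.le).trans hq1.le
  have c1 : 8 * m ≤ 2 ^ n := by exact_mod_cast h8q
  have c2 : 2 * (m * (miss a (4 ^ n)).card) < 2 ^ n := by
    rw [← hB]
    have h8 : 2 * ((m : ℝ) * B) < (2 : ℝ) ^ n := by
      have h9 : 2 * L ^ 2 ≤ L ^ 70 := powb hL 2 2 68 (by norm_num)
      calc 2 * ((m : ℝ) * B) ≤ 2 * ((m : ℝ) * L ^ 2) := by
            apply mul_le_mul_of_nonneg_left _ (by norm_num)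
            exact mul_le_mul_of_nonneg_left hBL hmpos.le
        _ = 2 * L ^ 2 * m := by ring
        _ ≤ L ^ 70 * m := mul_le_mul_of_nonneg_right h9 hmpos.le
        _ < (2 : ℝ) ^ n := hq1
    exact_mod_cast h8
  have c3 : 16 * m ^ 2 + 2 ^ n ≤ J * 2 ^ n := by exact_mod_cast hJ2
  have c4 : (J + 1) * 2 ^ n ≤ J ^ 3 := by exact_mod_cast hJ3
  have c5 : 2 * 4 ^ n + 2 * ((miss a (4 ^ n)).card * (R * m)) ≤ Y * (R * m) := by
    rw [← hB]
    have h4n : ((2 : ℝ) ^ n) ^ 2 = ((4 : ℝ)) ^ n := by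
      rw [← pow_mul, mul_comm n 2, pow_mul]; norm_num
    rw [h4n] at hY1
    exact_mod_cast hY1
  have c6 : 2 * Y ≤ 2 ^ n := by
    have h3 : 2 * (Y : ℝ) ≤ (2 : ℝ) ^ n := by linarith
    exact_mod_cast h3
  have c7 : ∀ m', m < m' → m' ≤ R * m → ¬ Missing a m' := by
    intro m' h3 h4
    apply hcon2 m' h3
    have h5 : (m' : ℝ) ≤ (R : ℝ) * m := by exact_mod_cast h4
    calc (m' : ℝ) ≤ (R : ℝ) * m := h5
      _ ≤ L ^ 220 * m := mul_le_mul_of_nonneg_right hR1 hmpos.le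
      _ = m * L ^ 220 := by ring
  have c8 : ∀ p ∈ (Icc 1 ⌊2 * (2 : ℝ) ^ n⌋₊).filter (fun p : ℕ => p.Prime ∧
        |(p : ℝ) - (2 : ℝ) ^ n| ≤ (2 : ℝ) ^ n / (Real.log ((2 : ℝ) ^ n)) ^ 71),
      p.Prime ∧ Odd p ∧ p < 2 ^ n + 2 * m ∧ 2 ^ n < p + 2 * m := by
    intro p hp
    rw [Finset.mem_filter] at hp
    obtain ⟨_, hpp, hpq⟩ := hp
    have h3 := abs_lt.1 (hpq.trans_lt hwin)
    have h4 : (p : ℝ) < (2 : ℝ) ^ n + 2 * m := by linarith [h3.2]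
    have h5 : (2 : ℝ) ^ n < (p : ℝ) + 2 * m := by linarith [h3.1]
    have h6 : p < 2 ^ n + 2 * m := by exact_mod_cast h4
    have h7 : 2 ^ n < p + 2 * m := by exact_mod_cast h5
    refine ⟨hpp, hpp.odd_of_ne_two ?_, h6, h7⟩
    intro hp2
    omega
  have hmain := h2 a m n R J Y _ ha hmiss hm1 hn1 hR4 c7 c1 c2 hJ1 c3 c4 c5 c6 c8
  rw [← hB] at hmain
  have hJR1 : (1 : ℝ) ≤ (J : ℝ) := by exact_mod_cast hJ1
  have hlogJ : Real.log J ≤ L := by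
    rw [← hlog]
    exact Real.log_le_log (by linarith) (hJ4.trans hu17)
  have hU := upper hL hupos (Nat.cast_nonneg B) hBL hJR1 hJ4 hlogJ (Nat.cast_nonneg Y) hY2 hmain
  have hLo := lower hL hc hupos hum hq1 hlq1 hlq2 (hX ((2 : ℝ) ^ n) (by
    have h3 : L ≤ (m : ℝ) := by
      have h4 := powm hL (show 1 ≤ 300 by norm_num)
      rw [pow_one] at h4
      exact h4.trans hpm
    linarith))
  exact contra hL hu2 (by norm_num) hD hLo hU

theorem stGap_of (h1 : StShort) (h2 : StComb) : StGap := by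
  classical
  obtain ⟨c, X₀, hc, hX⟩ := h1 71
  have hev : ∀ᶠ L : ℝ in Filter.atTop, L ^ 300 ≤ Real.exp L := by
    have h := Real.tendsto_exp_div_pow_atTop 300
    filter_upwards [h.eventually_ge_atTop 1, Filter.eventually_gt_atTop 0] with L hL1 hL0
    rwa [le_div_iff₀ (by positivity), one_mul] at hL1
  obtain ⟨L₀, hL₀⟩ := Filter.eventually_atTop.1 hev
  obtain ⟨κ, hκ⟩ : ∃ κ : ℝ, κ = c / 2 ^ 72 := ⟨_, rfl⟩
  have hκpos : 0 < κ := by rw [hκ]; positivity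
  obtain ⟨K1, hK1⟩ : ∃ K1 : ℝ, K1 = 1024 * 17 * 2 ^ 64 := ⟨_, rfl⟩
  refine ⟨⌈Real.exp (max (max L₀ (4 * K1 / κ)) (max 100 X₀))⌉₊, 220, ?_⟩
  intro a ha m hm hmiss
  by_contra hcon
  push Not at hcon
  obtain ⟨hcon1, hcon2⟩ := hcon
  have hmM : Real.exp (max (max L₀ (4 * K1 / κ)) (max 100 X₀)) ≤ (m : ℝ) :=
    (Nat.le_ceil _).trans (by exact_mod_cast hm)
  have hmpos : (0 : ℝ) < m := (Real.exp_pos _).trans_le hmM
  have hmexp : Real.exp (Real.log m) = m := Real.exp_log hmpos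
  have hML : max (max L₀ (4 * K1 / κ)) (max 100 X₀) ≤ Real.log m :=
    (Real.le_log_iff_exp_le hmpos).2 hmM
  have hLL₀ : L₀ ≤ Real.log m := ((le_max_left _ _).trans (le_max_left _ _)).trans hML
  have hLD : 4 * K1 / κ ≤ Real.log m := ((le_max_right _ _).trans (le_max_left _ _)).trans hML
  have hL100 : 100 ≤ Real.log m := ((le_max_left _ _).trans (le_max_right _ _)).trans hML
  have hLX : X₀ ≤ Real.log m := ((le_max_right _ _).trans (le_max_right _ _)).trans hML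
  have hpm : (Real.log m) ^ 300 ≤ (m : ℝ) := by
    have := hL₀ _ hLL₀
    rwa [hmexp] at this
  have hD : 4 * K1 ≤ κ * (Real.log m) ^ 2 := by
    rw [div_le_iff₀ hκpos] at hLD
    have h3 : Real.log m ≤ (Real.log m) ^ 2 := by
      have := powm hL100 (show 1 ≤ 2 by norm_num)
      rwa [pow_one] at this
    have h4 := mul_le_mul_of_nonneg_right h3 hκpos.le
    linarith
  rw [hK1, hκ] at hD
  exact one_m h2 hc hX ha hmiss (by exact_mod_cast hmpos) hL100 hpm rfl hLX hD hcon1 hcon2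

end Pool.Agent.Helper12.Hof
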