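import Mathlib
import Pool.Agent.Helper12.Hof.Defs

/-! H-2 and H-3: a small divisor with many divisors, and moments of the divisor function.

PROOF of `stLandreau`: for all `y ≥ 1` and all `j, n` with `n ≥ 1`, `n^2 ≤ y^j` there is `a ∣ n` with
`a ≤ y` and `d(n) ≤ 2^j d(a)^j`.  Induction on `j` (for all `n`).  If `n ≤ y` take `a = n` when `j ≥ 1`;
for `j = 0` we have `n = 1`, `a = 1`.
Step `j → j+1`, `n > y`: let `b` be the largest divisor of `n` with `b ≤ y` (exists: `1`), `n = b c`.
Case 1: `y ≤ b^2`.  Then `c^2 y ≤ c^2 b^2 = n^2 ≤ y^(j+1)`, so `c^2 ≤ y^j`; by induction there is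
`a' ∣ c`, `a' ≤ y`, `d(c) ≤ 2^j d(a')^j`.  As `d(n) ≤ d(b) d(c)`, the one of `b`, `a'` with more
divisors satisfies `d(n) ≤ 2^j d(a)^(j+1)`.
Case 2: `b^2 < y`.  Every prime `p ∣ c` satisfies `b p ∣ n` and `b p > b`, so `b p > y` by maximality,
so `p^2 b^2 > y^2 > y b^2`, `p^2 > y`.  If `r = Ω(c)` then (for `r ≥ 1`) `y^r < c^2 ≤ n^2 ≤ y^(j+1)`,
so `r ≤ j` (also for `r = 0`), and `d(c) ≤ 2^Ω(c) ≤ 2^j`, `d(n) ≤ d(b) d(c) ≤ 2^j d(b)`; take `a = b`
(`d(b) ≥ 1`, `d(b) ≤ d(b)^(j+1)`).
(Submultiplicativity `d(bc) ≤ d(b) d(c)`: the map `(u, v) ↦ u v` from `divisors b × divisors c` onto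
`divisors (bc)`, see `Nat.divisors_mul`, `Finset.card_mul_le`.  `d(c) ≤ 2^Ω(c)` by induction on the
list of prime factors, using submultiplicativity.)

PROOF of `stDivMoment`: `D_r(J) = ∑_{a ≤ J} d(a)^r / a ≤ (1 + log J)^(2^r)` by induction on `r`.
`r = 0`: harmonic sum (`harmonic_le_one_add_log`).  Step: `d(a)^(r+1) = ∑_{b c = a} d(a)^r`
`≤ ∑_{b c = a} d(b)^r d(c)^r`, so `D_(r+1)(J) ≤ ∑_{b, c ≤ J} d(b)^r d(c)^r / (b c) = D_r(J)^2`. -/

set_option autoImplicit false

namespace Pool.Agent.Helper12.Hof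

open Finset

theorem card_divisors_mul_le (b c : ℕ) : (b * c).divisors.card ≤ b.divisors.card * c.divisors.card := by
  rw [Nat.divisors_mul]
  exact card_mul_le

private theorem few (y : ℕ) : ∀ c : ℕ, 1 ≤ c → (∀ p : ℕ, p.Prime → p ∣ c → y < p ^ 2) →
    ∃ r : ℕ, c.divisors.card ≤ 2 ^ r ∧ y ^ r ≤ c ^ 2 ∧ (1 ≤ r → y ^ r < c ^ 2) := by
  intro c
  induction c using Nat.strong_induction_on with
  | _ c ih =>
    intro hc hp
    rcases Nat.eq_or_lt_of_le hc with h1 | h1
    · subst h1
      exact ⟨0, by simp, by simp, by simp⟩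
    · have hpr : (c.minFac).Prime := Nat.minFac_prime (by omega)
      obtain ⟨c', hc'⟩ := Nat.minFac_dvd c
      set p := c.minFac with hpdef
      have hc'0 : 1 ≤ c' := by
        rcases Nat.eq_zero_or_pos c' with h | h
        · subst h; omega
        · exact h
      have hlt : c' < c := by
        have := hpr.two_le
        nlinarith
      obtain ⟨r, h2, h3, _⟩ := ih c' hlt hc'0 (fun q hq hqc => hp q hq (by
        rw [hc']; exact hqc.mul_left p))
      have hyp : y < p ^ 2 := hp p hpr (Nat.minFac_dvd c)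
      have h4 : y ^ (r + 1) < c ^ 2 := by
        rw [hc', mul_pow, pow_succ]
        calc y ^ r * y ≤ c' ^ 2 * y := Nat.mul_le_mul_right y h3
          _ < c' ^ 2 * p ^ 2 := Nat.mul_lt_mul_of_pos_left hyp (by positivity)
          _ = p ^ 2 * c' ^ 2 := mul_comm _ _
      refine ⟨r + 1, ?_, h4.le, fun _ => h4⟩
      have h5 : c.divisors.card ≤ p.divisors.card * c'.divisors.card := by
        have := card_divisors_mul_le p c'
        rwa [← hc'] at this
      have h6 : p.divisors.card = 2 := by
        rw [hpr.divisors]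
        exact card_pair hpr.one_lt.ne
      rw [h6] at h5
      calc c.divisors.card ≤ 2 * c'.divisors.card := h5
        _ ≤ 2 * 2 ^ r := Nat.mul_le_mul_left 2 h2
        _ = 2 ^ (r + 1) := by ring

theorem stLandreau : StLandreau := by
  intro j y
  induction j with
  | zero =>
    intro n hy hn h
    rw [pow_zero] at h
    have h1 : n = 1 := by nlinarith
    subst h1
    exact ⟨1, one_dvd _, hy, by simp⟩
  | succ j ih =>
    intro n hy hn h
    have hcard : ∀ m : ℕ, 1 ≤ m → 1 ≤ m.divisors.card := by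
      intro m hm
      exact card_pos.2 ⟨1, Nat.mem_divisors.2 ⟨one_dvd _, by omega⟩⟩
    rcases Nat.lt_or_ge y n with hyn | hyn
    · -- the largest divisor at most `y`
      obtain ⟨b, hb, hmax⟩ := exists_max_image (n.divisors.filter (· ≤ y)) id
        ⟨1, mem_filter.2 ⟨Nat.mem_divisors.2 ⟨one_dvd _, by omega⟩, hy⟩⟩
      rw [mem_filter, Nat.mem_divisors] at hb
      obtain ⟨⟨⟨c, hc⟩, _⟩, hby⟩ := hb
      have hb0 : 1 ≤ b := by
        rcases Nat.eq_zero_or_pos b with h0 | h0
        · subst h0; omega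
        · exact h0
      have hc0 : 1 ≤ c := by
        rcases Nat.eq_zero_or_pos c with h0 | h0
        · subst h0; omega
        · exact h0
      have hmul : n.divisors.card ≤ b.divisors.card * c.divisors.card := by
        have := card_divisors_mul_le b c
        rwa [← hc] at this
      rcases Nat.lt_or_ge (b ^ 2) y with hb2 | hb2
      · have hprime : ∀ p : ℕ, p.Prime → p ∣ c → y < p ^ 2 := by
          intro p hp hpc
          have h1 : y < b * p := by
            by_contra hcon
            push Not at hcon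
            have h2 := hmax (b * p) (mem_filter.2 ⟨Nat.mem_divisors.2 ⟨by
              rw [hc]; exact Nat.mul_dvd_mul_left b hpc, by omega⟩, hcon⟩)
            simp only [id] at h2
            have := hp.two_le
            nlinarith
          by_contra hcon
          push Not at hcon
          have h3 : (b * p) ^ 2 ≤ y * y := by
            rw [mul_pow]
            exact Nat.mul_le_mul hb2.le hcon
          nlinarith
        obtain ⟨r, h1, h2, h3⟩ := few y c hc0 hprime
        have hrj : r ≤ j := by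
          by_contra hcon
          push Not at hcon
          have h4 := h3 (by omega)
          have h5 : y ^ (j + 1) ≤ y ^ r := Nat.pow_le_pow_right hy hcon
          have h6 : c ^ 2 ≤ n ^ 2 := by
            apply Nat.pow_le_pow_left
            rw [hc]
            exact Nat.le_mul_of_pos_left c hb0
          omega
        refine ⟨b, ⟨c, hc⟩, hby, hmul.trans ?_⟩
        have h7 : b.divisors.card ≤ b.divisors.card ^ (j + 1) :=
          Nat.le_self_pow (by omega) _
        calc b.divisors.card * c.divisors.card ≤ b.divisors.card ^ (j + 1) * 2 ^ (j + 1) :=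
              Nat.mul_le_mul h7 (h1.trans (Nat.pow_le_pow_right (by norm_num) (by omega)))
          _ = 2 ^ (j + 1) * b.divisors.card ^ (j + 1) := mul_comm _ _
      · have hc2 : c ^ 2 ≤ y ^ j := by
          have h1 : c ^ 2 * y ≤ y ^ j * y := by
            calc c ^ 2 * y ≤ c ^ 2 * b ^ 2 := Nat.mul_le_mul_left _ hb2
              _ = n ^ 2 := by rw [hc]; ring
              _ ≤ y ^ (j + 1) := h
              _ = y ^ j * y := pow_succ _ _
          exact Nat.le_of_mul_le_mul_right h1 hy
        obtain ⟨a', ha1, ha2, ha3⟩ := ih c hy hc0 hc2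
        have h2j : 2 ^ j ≤ 2 ^ (j + 1) := Nat.pow_le_pow_right (by norm_num) (by omega)
        rcases Nat.le_total b.divisors.card a'.divisors.card with hle | hle
        · refine ⟨a', ha1.trans ⟨b, by rw [hc]; ring⟩, ha2, hmul.trans ?_⟩
          calc b.divisors.card * c.divisors.card
              ≤ a'.divisors.card * (2 ^ j * a'.divisors.card ^ j) := Nat.mul_le_mul hle ha3
            _ = 2 ^ j * a'.divisors.card ^ (j + 1) := by ring
            _ ≤ 2 ^ (j + 1) * a'.divisors.card ^ (j + 1) := Nat.mul_le_mul_right _ h2j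
        · refine ⟨b, ⟨c, hc⟩, hby, hmul.trans ?_⟩
          calc b.divisors.card * c.divisors.card
              ≤ b.divisors.card * (2 ^ j * b.divisors.card ^ j) :=
                Nat.mul_le_mul_left _ (ha3.trans (Nat.mul_le_mul_left _
                  (Nat.pow_le_pow_left hle j)))
            _ = 2 ^ j * b.divisors.card ^ (j + 1) := by ring
            _ ≤ 2 ^ (j + 1) * b.divisors.card ^ (j + 1) := Nat.mul_le_mul_right _ h2j
    · refine ⟨n, dvd_rfl, hyn, ?_⟩
      have h1 : n.divisors.card ≤ n.divisors.card ^ (j + 1) := Nat.le_self_pow (by omega) _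
      exact h1.trans (Nat.le_mul_of_pos_left _ (by positivity))

private theorem moment_step (r J : ℕ) :
    ∑ a ∈ Icc 1 J, ((a.divisors.card : ℝ) ^ (r + 1)) / a ≤
      (∑ a ∈ Icc 1 J, ((a.divisors.card : ℝ) ^ r) / a) ^ 2 := by
  classical
  set F : ℕ × ℕ → ℝ := fun w => ((w.1.divisors.card : ℝ) ^ r / w.1) *
    ((w.2.divisors.card : ℝ) ^ r / w.2) with hF
  have hF0 : ∀ w, 0 ≤ F w := fun w => by rw [hF]; positivity
  have h1 : ∀ n ∈ Icc 1 J, ((n.divisors.card : ℝ) ^ (r + 1)) / n ≤
      ∑ w ∈ Icc 1 J ×ˢ Icc 1 J, if w.1 * w.2 = n then F w else 0 := by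
    intro n hn
    rw [mem_Icc] at hn
    rw [← sum_filter]
    have hsub : n.divisorsAntidiagonal ⊆
        (Icc 1 J ×ˢ Icc 1 J).filter (fun w => w.1 * w.2 = n) := by
      rintro ⟨b, c⟩ hw
      rw [Nat.mem_divisorsAntidiagonal] at hw
      simp only at hw
      rw [mem_filter, mem_product, mem_Icc, mem_Icc]
      have hb : b ≠ 0 := by rintro rfl; simp at hw; omega
      have hc : c ≠ 0 := by rintro rfl; simp at hw; omega
      refine ⟨⟨⟨by omega, ?_⟩, by omega, ?_⟩, hw.1⟩
      · exact (Nat.le_of_dvd hn.1 ⟨c, hw.1.symm⟩).trans hn.2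
      · exact (Nat.le_of_dvd hn.1 ⟨b, by rw [← hw.1, mul_comm]⟩).trans hn.2
    refine le_trans ?_ (sum_le_sum_of_subset_of_nonneg hsub fun w _ _ => hF0 w)
    have hcard : (n.divisors.card : ℝ) = n.divisorsAntidiagonal.card := by
      rw [← Nat.map_div_right_divisors, card_map]
    calc ((n.divisors.card : ℝ) ^ (r + 1)) / n
        = ∑ w ∈ n.divisorsAntidiagonal, (n.divisors.card : ℝ) ^ r / n := by
          rw [sum_const, nsmul_eq_mul, ← hcard, pow_succ]
          ring
      _ ≤ ∑ w ∈ n.divisorsAntidiagonal, F w := by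
          refine sum_le_sum fun w hw => ?_
          rw [Nat.mem_divisorsAntidiagonal] at hw
          have h2 : (n.divisors.card : ℝ) ≤ w.1.divisors.card * w.2.divisors.card := by
            have := card_divisors_mul_le w.1 w.2
            rw [hw.1] at this
            exact_mod_cast this
          have h3 : (n : ℝ) = w.1 * w.2 := by
            rw [← hw.1]; push_cast; ring
          rw [hF]
          simp only
          rw [div_mul_div_comm, ← mul_pow, ← h3]
          exact div_le_div_of_nonneg_right (pow_le_pow_left₀ (by positivity) h2 r)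
            (by positivity)
  calc ∑ a ∈ Icc 1 J, ((a.divisors.card : ℝ) ^ (r + 1)) / a
      ≤ ∑ n ∈ Icc 1 J, ∑ w ∈ Icc 1 J ×ˢ Icc 1 J, (if w.1 * w.2 = n then F w else 0) :=
        sum_le_sum h1
    _ = ∑ w ∈ Icc 1 J ×ˢ Icc 1 J, ∑ n ∈ Icc 1 J, (if w.1 * w.2 = n then F w else 0) := sum_comm
    _ ≤ ∑ w ∈ Icc 1 J ×ˢ Icc 1 J, F w := by
        refine sum_le_sum fun w _ => ?_
        rw [sum_ite_eq]
        split_ifs
        · exact le_rfl
        · exact hF0 w
    _ = (∑ a ∈ Icc 1 J, ((a.divisors.card : ℝ) ^ r) / a) ^ 2 := by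
        rw [sq, sum_mul_sum, sum_product]

theorem stDivMoment : StDivMoment := by
  intro r J hJ
  induction r with
  | zero =>
    have h := harmonic_le_one_add_log J
    rw [harmonic_eq_sum_Icc] at h
    simp only [pow_zero, pow_one]
    push_cast at h
    simpa only [one_div] using h
  | succ r ih =>
    refine (moment_step r J).trans ?_
    rw [pow_succ (2 : ℕ) r, pow_mul]
    apply pow_le_pow_left₀ _ ih
    exact sum_nonneg fun a _ => by positivity

end Pool.Agent.Helper12.Hof
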