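import Mathlib
import Pool.Agent.Helper12.Hof.Defs
import Pool.Agent.Helper6.SW.MassAll
import Pool.Agent.Helper16.SW.ZSum

/-! H-1b, H-1c: total mass of the weight on the integers and prime powers, uniformly in the width.

PROOF of `stOmU` (compare `stOmSum` in Pool/Agent/Helper16/SW/ZSum.lean).  For integers `n` with
`X < n ≤ X e^(V/2)` one has `0 < log n - log X ≤ V/2`, so `tent V (log n - log X) ≥ 1/2`,
`(log n)^k ≥ (log X)^k` and `n^(-(1+1/log X)) ≥ (e X)^(-(1+1/log X)) = e^(-(1+1/log X)) X^(-1) e^(-1)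
≥ e^(-3) / X`.  The number of these integers is at least `X (e^(V/2) - 1) - 1 ≥ X V/2 - 1 ≥ X V/4`
since `V X ≥ 8` (they all lie in `Icc 1 (NX V X)`), and all terms are nonnegative.  So
`c = e^(-3)/8` works.

PROOF of `stPPU`: let `X₀` be the bound from `Helper16.SW.stPrimePow 1 k` (width `1`) and also
`X₀ ≥ 1`.  For `V ≤ 1`: `om V k X n ≤ om 1 k X n` (tent is monotone in the width: `|v|/1 ≤ |v|/V`),
`NX V X ≤ NX 1 X`, so
`∑_{n ≤ NX V X} Λ(n) om V k X n - Mass V k X = ∑_{n ≤ NX V X, n not prime} Λ(n) om V k X n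
  ≤ ∑_{n ≤ NX 1 X, n not prime} Λ(n) om 1 k X n = ∑_{n ≤ NX 1 X} Λ(n) om 1 k X n - Mass 1 k X ≤ 1`
(for a prime `p` one has `Λ(p) = log p`, `PX` is the set of primes in `Icc 1 (NX V X)`). -/

set_option autoImplicit false

namespace Pool.Agent.Helper12.Hof

open Finset MeasureTheory Pool.Agent.Helper6.SW

theorem stOmU : StOmU := by
  intro k
  refine ⟨Real.exp (-3) / 8, by positivity, fun V X hV hV1 hX hVX => ?_⟩
  have hX1 : (1 : ℝ) ≤ Real.exp 2 := Real.one_le_exp (by norm_num)
  have hXpos : 0 < X := by linarith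
  have hlogX : 2 ≤ Real.log X := by
    have := Real.log_le_log (Real.exp_pos 2) hX
    rwa [Real.log_exp] at this
  have hlogXpos : 0 < Real.log X := by linarith
  set a : ℕ := ⌊X⌋₊ with ha
  set b : ℕ := ⌊Real.exp (V / 2) * X⌋₊ with hb
  have haR : (a : ℝ) ≤ X := Nat.floor_le hXpos.le
  have hbR : Real.exp (V / 2) * X - 1 < (b : ℝ) := by
    have := Nat.lt_floor_add_one (Real.exp (V / 2) * X)
    rw [← hb] at this
    linarith
  have hbX : (b : ℝ) ≤ Real.exp (V / 2) * X := Nat.floor_le (by positivity)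
  have he : V / 2 + 1 ≤ Real.exp (V / 2) := Real.add_one_le_exp _
  have hcount : V / 4 * X ≤ ((b : ℝ) - a) := by
    have h1 : (V / 2 + 1) * X ≤ Real.exp (V / 2) * X := mul_le_mul_of_nonneg_right he hXpos.le
    nlinarith
  have hab : a ≤ b := by
    have h1 : (a : ℝ) ≤ b := by
      have : 0 ≤ V / 4 * X := by positivity
      linarith
    exact_mod_cast h1
  have hsub : Ioc a b ⊆ Icc 1 (NX V X) := by
    intro n hn
    rw [mem_Ioc] at hn
    rw [mem_Icc]
    refine ⟨by omega, hn.2.trans ?_⟩
    rw [hb, NX]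
    apply Nat.floor_le_floor
    have : Real.exp (V / 2) ≤ Real.exp V := Real.exp_le_exp.2 (by linarith)
    exact mul_le_mul_of_nonneg_right this hXpos.le
  have hterm : ∀ n ∈ Ioc a b,
      (Real.log X) ^ k * (Real.exp (-3) / X) * (1 / 2) ≤ om V k X n := by
    intro n hn
    rw [mem_Ioc] at hn
    have hn1 : 1 ≤ n := by omega
    have hn1R : (1 : ℝ) ≤ n := by exact_mod_cast hn1
    have hn0 : (0 : ℝ) < n := by linarith
    have hnX : (n : ℝ) ≤ Real.exp (V / 2) * X := by
      have h1 : (n : ℝ) ≤ b := by exact_mod_cast hn.2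
      exact h1.trans hbX
    have hna : X < n := by
      have h1 := hn.1
      rw [ha, Nat.floor_lt hXpos.le] at h1
      exact h1
    have hlogn : Real.log X ≤ Real.log n := Real.log_le_log hXpos hna.le
    have hlogn2 : Real.log n ≤ Real.log X + V / 2 := by
      have h1 := Real.log_le_log hn0 hnX
      rw [Real.log_mul (Real.exp_pos _).ne' hXpos.ne', Real.log_exp] at h1
      linarith
    have htent : 1 / 2 ≤ tent V (Real.log n - Real.log X) := by
      unfold tent
      refine le_trans ?_ (le_max_right _ _)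
      have h1 : |Real.log n - Real.log X| ≤ V / 2 := by
        rw [abs_le]; constructor <;> linarith
      have h2 : |Real.log n - Real.log X| / V ≤ 1 / 2 := by
        rw [div_le_iff₀ hV]; linarith
      linarith
    have hpow : (Real.log X) ^ k ≤ (Real.log n) ^ k := pow_le_pow_left₀ hlogXpos.le hlogn k
    have hrp : Real.exp (-3) / X ≤ (n : ℝ) ^ (-(1 + 1 / Real.log X)) := by
      rw [Real.rpow_def_of_pos hn0]
      have h0 : Real.exp (-3) / X = Real.exp (-3 - Real.log X) := by
        rw [Real.exp_sub, Real.exp_log hXpos]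
      rw [h0]
      apply Real.exp_le_exp.2
      have h2 : 1 / Real.log X ≤ 1 / 2 := one_div_le_one_div_of_le (by norm_num) hlogX
      have h3 : Real.log X * (1 / Real.log X) = 1 := by field_simp
      have h4 : 0 ≤ 1 / Real.log X := by positivity
      have h5 : Real.log n * (1 + 1 / Real.log X) ≤
          (Real.log X + V / 2) * (1 + 1 / Real.log X) :=
        mul_le_mul_of_nonneg_right hlogn2 (by linarith)
      have h6 : V / 2 * (1 / Real.log X) ≤ 1 / 2 * (1 / 2) :=
        mul_le_mul (by linarith) h2 h4 (by norm_num)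
      nlinarith
    unfold om
    apply mul_le_mul _ htent (by norm_num)
    · have : 0 ≤ Real.log (n : ℝ) := Real.log_nonneg hn1R
      positivity
    · exact mul_le_mul hpow hrp (by positivity) (pow_nonneg (Real.log_nonneg hn1R) k)
  have hsum : (((b : ℝ) - a)) * ((Real.log X) ^ k * (Real.exp (-3) / X) * (1 / 2))
      ≤ ∑ n ∈ Ioc a b, om V k X n := by
    have h1 := Finset.sum_le_sum hterm
    rw [Finset.sum_const, Nat.card_Ioc, nsmul_eq_mul, Nat.cast_sub hab] at h1
    exact h1
  calc Real.exp (-3) / 8 * V * (Real.log X) ^ k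
      = (V / 4 * X) * ((Real.log X) ^ k * (Real.exp (-3) / X) * (1 / 2)) := by
        field_simp
        ring
    _ ≤ (((b : ℝ) - a)) * ((Real.log X) ^ k * (Real.exp (-3) / X) * (1 / 2)) :=
        mul_le_mul_of_nonneg_right hcount (by positivity)
    _ ≤ ∑ n ∈ Ioc a b, om V k X n := hsum
    _ ≤ ∑ n ∈ Icc 1 (NX V X), om V k X n :=
        Finset.sum_le_sum_of_subset_of_nonneg hsub fun n _ _ =>
          Pool.Agent.Helper79.SW.om_nonneg V k X n

theorem om_mono_width {V W : ℝ} (hV : 0 < V) (hVW : V ≤ W) (k : ℕ) (X : ℝ) {n : ℕ}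
    (hn : 1 ≤ n) : om V k X n ≤ om W k X n := by
  unfold om
  have hn1 : (1 : ℝ) ≤ n := by exact_mod_cast hn
  have h0 : 0 ≤ (Real.log n) ^ k * (n : ℝ) ^ (-(1 + 1 / Real.log X)) :=
    mul_nonneg (pow_nonneg (Real.log_nonneg hn1) k) (Real.rpow_nonneg (by linarith) _)
  refine mul_le_mul_of_nonneg_left ?_ h0
  unfold tent
  refine max_le_max le_rfl ?_
  have : |Real.log n - Real.log X| / W ≤ |Real.log n - Real.log X| / V :=
    div_le_div_of_nonneg_left (abs_nonneg _) hV hVW
  linarith

theorem psi_split (V : ℝ) (k : ℕ) (X : ℝ) :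
    ∑ n ∈ Icc 1 (NX V X), ArithmeticFunction.vonMangoldt n * om V k X n
      = Mass V k X + ∑ n ∈ Icc 1 (NX V X),
        (ArithmeticFunction.vonMangoldt n - (if n.Prime then Real.log n else 0)) * om V k X n := by
  have hMass : Mass V k X = ∑ n ∈ Icc 1 (NX V X),
      (if n.Prime then Real.log n else 0) * om V k X n := by
    unfold Mass PX
    rw [Finset.sum_filter]
    refine Finset.sum_congr rfl fun n _ => ?_
    split_ifs <;> simp
  rw [hMass, ← Finset.sum_add_distrib]
  refine Finset.sum_congr rfl fun n _ => ?_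
  ring

theorem stPPU : StPPU := by
  intro k
  obtain ⟨X₀, hX₀⟩ := Pool.Agent.Helper16.SW.stPrimePow 1 k (by norm_num)
  refine ⟨max X₀ 1, fun V X hV hV1 hX => ?_⟩
  have h1 := hX₀ X ((le_max_left _ _).trans hX)
  have hX1 : 1 ≤ X := (le_max_right _ _).trans hX
  have hnn : ∀ n : ℕ, 0 ≤ ArithmeticFunction.vonMangoldt n -
      (if n.Prime then Real.log n else 0) := by
    intro n
    split_ifs with hp
    · rw [ArithmeticFunction.vonMangoldt_apply_prime hp]
      simp
    · simp [ArithmeticFunction.vonMangoldt_nonneg]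
  rw [psi_split] at h1 ⊢
  have hN : NX V X ≤ NX 1 X := by
    unfold NX
    apply Nat.floor_le_floor
    exact mul_le_mul_of_nonneg_right (Real.exp_le_exp.2 hV1) (by linarith)
  have h2 : ∑ n ∈ Icc 1 (NX V X),
        (ArithmeticFunction.vonMangoldt n - (if n.Prime then Real.log n else 0)) * om V k X n ≤
      ∑ n ∈ Icc 1 (NX 1 X),
        (ArithmeticFunction.vonMangoldt n - (if n.Prime then Real.log n else 0)) * om 1 k X n := by
    calc _ ≤ ∑ n ∈ Icc 1 (NX V X),
        (ArithmeticFunction.vonMangoldt n - (if n.Prime then Real.log n else 0)) * om 1 k X n := by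
          refine Finset.sum_le_sum fun n hn => ?_
          rw [mem_Icc] at hn
          exact mul_le_mul_of_nonneg_left (om_mono_width hV hV1 k X hn.1) (hnn n)
      _ ≤ _ := by
          refine Finset.sum_le_sum_of_subset_of_nonneg ?_ fun n _ _ =>
            mul_nonneg (hnn n) (Pool.Agent.Helper79.SW.om_nonneg 1 k X n)
          exact Finset.Icc_subset_Icc le_rfl hN
  linarith

end Pool.Agent.Helper12.Hof
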