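import Mathlib
import Pool.Agent.Helper12.Hof.Defs

/-! H-5: pairs with given product modulo a power of two.

PROOF.  Write `c = 2^v c'` with `c'` odd; since `0 < c < 2^n` we have `v < n`.  Put `q' = 2^(n-v)`,
an even number; `0 < c' < q'`, `c'` and `q'` are coprime.  Let `(η, ζ)` be a pair in the set.  Then
`η ζ = c + j 2^n` with an integer `j`, and `|j| 2^n ≤ |η ζ| + c ≤ Y^2 + c ≤ J 2^n`, so `|j| ≤ J`.
So `η ζ = 2^v (c' + j q')` and `u_j := c' + j q'` is odd, in particular not `0`.  Exactly one of `η`,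
`ζ` is odd; the odd one is coprime to `2^v`, so it divides `u_j`.  The pair is determined by `j`, by
which of the two is the odd one, by the sign of the odd one and by its absolute value, a divisor of
`|u_j|` (the other one is `(c + j 2^n) / (odd one)`).  So the number of pairs is at most
`∑_{|j| ≤ J} 4 d(|u_j|)`, which is at most `4 * 256 * J (1 + log J)^64` by `StDivAP` applied to
`q'`, `c'`, `J`: `(J+1) q' ≤ (J+1) 2^n ≤ J^3`. -/

set_option autoImplicit false

namespace Pool.Agent.Helper12.Hof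

open Finset

private theorem odd_dvd (v : ℕ) (o u : ℤ) (ho : Odd o) (h : o ∣ 2 ^ v * u) : o ∣ u := by
  have h1 : IsCoprime o ((2 : ℤ) ^ v) := by
    apply IsCoprime.pow_right
    obtain ⟨t, ht⟩ := ho
    exact ⟨1, -t, by rw [ht]; ring⟩
  exact h1.dvd_of_dvd_mul_left h

theorem stPairs_of (h : StDivAP) : StPairs := by
  classical
  intro n J c Y hJ hc0 hcn hY0 hYJ hJ3
  obtain ⟨v, c₁, hc₁, hcv⟩ := Nat.exists_eq_two_pow_mul_odd (n := c.toNat) (by omega)
  have hc' : c = 2 ^ v * (c₁ : ℤ) := by
    have h1 : (c.toNat : ℤ) = c := Int.toNat_of_nonneg hc0.le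
    rw [← h1, hcv]
    push_cast
    ring
  have hc₁pos : 1 ≤ c₁ := hc₁.pos
  have hvn : v < n := by
    by_contra hcon
    push Not at hcon
    have h1 : (2 : ℤ) ^ n ≤ 2 ^ v := pow_le_pow_right₀ (by norm_num) hcon
    have h2 : (2 : ℤ) ^ v ≤ 2 ^ v * (c₁ : ℤ) := by
      have h3 : (1 : ℤ) ≤ c₁ := by exact_mod_cast hc₁pos
      have h4 : (0 : ℤ) < 2 ^ v := by positivity
      nlinarith
    rw [← hc'] at h2
    linarith
  have hpow : (2 : ℤ) ^ n = 2 ^ v * 2 ^ (n - v) := by
    rw [← pow_add]; congr 1; omega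
  have hoc : Odd (c₁ : ℤ) := by exact_mod_cast hc₁
  set u : ℤ → ℤ := fun j => (c₁ : ℤ) + j * ((2 ^ (n - v) : ℕ) : ℤ) with hu
  have huodd : ∀ j, Odd (u j) := by
    intro j
    rw [hu]
    have h1 : Even (j * ((2 ^ (n - v) : ℕ) : ℤ)) := by
      have h2 : Even (((2 ^ (n - v) : ℕ) : ℤ)) := by
        obtain ⟨d, hd⟩ : ∃ d, n - v = d + 1 := ⟨n - v - 1, by omega⟩
        rw [hd]
        push_cast
        rw [pow_succ]
        exact (even_two).mul_left _
      exact h2.mul_left j
    exact hoc.add_even h1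
  have hcu : ∀ j : ℤ, c + j * 2 ^ n = 2 ^ v * u j := by
    intro j
    rw [hu, hc', hpow]
    push_cast
    ring
  have h2n : (0 : ℤ) < 2 ^ n := by positivity
  set W := ((Icc (-Y) Y) ×ˢ (Icc (-Y) Y)).filter (fun w : ℤ × ℤ =>
    Odd (w.1 + w.2) ∧ (2 : ℤ) ^ n ∣ w.1 * w.2 - c) with hW
  -- the code
  set od : ℤ × ℤ → ℤ := fun w => if Odd w.1 then w.1 else w.2 with hod
  set jj : ℤ × ℤ → ℤ := fun w => (w.1 * w.2 - c) / 2 ^ n with hjj
  have hjeq : ∀ w ∈ W, w.1 * w.2 = c + jj w * 2 ^ n := by
    intro w hw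
    rw [hW, mem_filter] at hw
    have h1 := Int.ediv_mul_cancel hw.2.2
    rw [hjj]
    simp only
    linarith
  have hododd : ∀ w ∈ W, Odd (od w) := by
    intro w hw
    rw [hW, mem_filter] at hw
    rw [hod]
    simp only
    split_ifs with h1
    · exact h1
    · rw [Int.not_odd_iff_even] at h1
      have h2 := hw.2.1
      rwa [Int.odd_add', Iff.comm, iff_true_intro h1, true_iff] at h2
  have hoddvd : ∀ w ∈ W, od w ∣ u (jj w) := by
    intro w hw
    apply odd_dvd v _ _ (hododd w hw)
    rw [← hcu, ← hjeq w hw, hod]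
    simp only
    split_ifs
    · exact dvd_mul_right _ _
    · exact dvd_mul_left _ _
  have hcode : W.card ≤ ((Icc (-(J : ℤ)) J).sigma (fun j =>
      (univ : Finset Bool) ×ˢ (univ : Finset Bool) ×ˢ (u j).natAbs.divisors)).card := by
    refine card_le_card_of_injOn (fun w => ⟨jj w, (decide (Odd w.1), decide (od w < 0),
      (od w).natAbs)⟩) ?_ ?_
    · intro w hw
      rw [mem_coe] at hw
      rw [mem_coe, mem_sigma]
      refine ⟨?_, ?_⟩
      · simp only
        have h1 := hjeq w hw
        rw [hW, mem_filter, mem_product, mem_Icc, mem_Icc] at hw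
        obtain ⟨⟨⟨a1, a2⟩, a3, a4⟩, _⟩ := hw
        have h3 : w.1 * w.2 ≤ Y ^ 2 := by nlinarith
        have h4 : -Y ^ 2 ≤ w.1 * w.2 := by nlinarith
        rw [mem_Icc]
        constructor
        · have h5 : -((J : ℤ) * 2 ^ n) ≤ jj w * 2 ^ n := by linarith
          by_contra hcon
          push Not at hcon
          nlinarith
        · have h5 : jj w * 2 ^ n ≤ (J : ℤ) * 2 ^ n := by linarith
          exact le_of_mul_le_mul_right h5 h2n
      · simp only [mem_product, mem_univ, true_and]
        rw [Nat.mem_divisors]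
        refine ⟨Int.natAbs_dvd_natAbs.2 (hoddvd w hw), ?_⟩
        rw [Int.natAbs_ne_zero]
        intro h0
        have := huodd (jj w)
        rw [h0] at this
        exact absurd this (by decide)
    · intro w hw w' hw' heq
      rw [mem_coe] at hw hw'
      simp only [Sigma.mk.injEq, heq_eq_eq, Prod.mk.injEq, decide_eq_decide] at heq
      obtain ⟨e1, e2, e3, e4⟩ := heq
      have e5 : od w = od w' := by
        rcases lt_or_ge (od w) 0 with hneg | hpos
        · have := e3.1 hneg
          omega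
        · have h1 : ¬ od w' < 0 := fun h2 => absurd (e3.2 h2) (by omega)
          omega
      have e6 : w.1 * w.2 = w'.1 * w'.2 := by rw [hjeq w hw, hjeq w' hw', e1]
      have hne : od w ≠ 0 := by
        intro h0
        have := hododd w hw
        rw [h0] at this
        exact absurd this (by decide)
      rw [hod] at e5 hne
      simp only at e5 hne
      by_cases ho : Odd w.1
      · have ho' : Odd w'.1 := e2.1 ho
        rw [if_pos ho, if_pos ho'] at e5
        rw [if_pos ho] at hne
        rw [← e5] at e6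
        exact Prod.ext e5 (mul_left_cancel₀ hne e6)
      · have ho' : ¬ Odd w'.1 := fun hh => ho (e2.2 hh)
        rw [if_neg ho, if_neg ho'] at e5
        rw [if_neg ho] at hne
        rw [← e5] at e6
        exact Prod.ext (mul_right_cancel₀ hne e6) e5
  rw [card_sigma] at hcode
  have hcard : ∀ j : ℤ, ((univ : Finset Bool) ×ˢ (univ : Finset Bool) ×ˢ
      (u j).natAbs.divisors).card = 4 * (u j).natAbs.divisors.card := by
    intro j
    rw [card_product, card_product, card_univ, Fintype.card_bool]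
    ring
  simp only [hcard] at hcode
  rw [← mul_sum] at hcode
  have hq1 : 1 ≤ 2 ^ (n - v) := Nat.one_le_two_pow
  have hAP := h (2 ^ (n - v)) J (c₁ : ℤ) hJ hq1 (by exact_mod_cast hc₁pos) (by
      have h1 : (2 : ℤ) ^ v * c₁ < 2 ^ v * 2 ^ (n - v) := by rw [← hc', ← hpow]; exact hcn
      have h2 := lt_of_mul_lt_mul_left h1 (by positivity)
      exact_mod_cast h2) (by
      push_cast
      apply IsCoprime.pow_right
      obtain ⟨t, ht⟩ := hoc
      exact ⟨1, -t, by rw [ht]; ring⟩) (by
      refine le_trans ?_ hJ3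
      exact Nat.mul_le_mul_left _ (Nat.pow_le_pow_right (by norm_num) (Nat.sub_le _ _)))
  have hfin : (W.card : ℝ) ≤ 4 * ∑ j ∈ Icc (-(J : ℤ)) J, (((u j).natAbs.divisors.card : ℕ) : ℝ) := by
    exact_mod_cast hcode
  refine hfin.trans ?_
  have h9 : ∑ j ∈ Icc (-(J : ℤ)) J, (((u j).natAbs.divisors.card : ℕ) : ℝ) ≤
      256 * J * (1 + Real.log J) ^ 64 := hAP
  linarith

end Pool.Agent.Helper12.Hof
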