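import Mathlib
import Pool.Agent.Helper12.Hof.ErrU
import Pool.Agent.Helper12.Hof.OmU

/-! H-1: primes in short intervals, from the smoothed prime number theorem. -/

set_option autoImplicit false

namespace Pool.Agent.Helper12.Hof

open Finset MeasureTheory Pool.Agent.Helper6.SW

theorem mem_of_om_ne {V X : ℝ} (hV : 0 < V) (hV1 : V ≤ 1) (hX : Real.exp 2 ≤ X) (k p : ℕ)
    (hp : 1 ≤ p) (hne : om V k X p ≠ 0) : |(p : ℝ) - X| ≤ 2 * V * X ∧ (p : ℝ) ≤ 2 * X ∨
      |(p : ℝ) - X| ≤ 2 * V * X ∧ 1 / 2 < V := by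
  have hX0 : 0 < X := lt_of_lt_of_le (Real.exp_pos _) hX
  have hp0 : (0 : ℝ) < p := by exact_mod_cast hp
  have htent : tent V (Real.log p - Real.log X) ≠ 0 := by
    intro h
    apply hne
    unfold om
    rw [h, mul_zero]
  have habs : |Real.log p - Real.log X| < V := by
    by_contra hcon
    push Not at hcon
    apply htent
    unfold tent
    apply max_eq_left
    have : 1 ≤ |Real.log p - Real.log X| / V := by
      rw [le_div_iff₀ hV]; linarith
    linarith
  rw [abs_lt] at habs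
  have hexp : Real.exp V ≤ 1 + 2 * V := by
    have h := Real.abs_exp_sub_one_sub_id_le (x := V) (by rw [abs_of_pos hV]; exact hV1)
    have h2 := (abs_le.1 h).2
    nlinarith
  have hexp2 : 1 - V ≤ Real.exp (-V) := by
    have := Real.add_one_le_exp (-V)
    linarith
  have h1 : (p : ℝ) ≤ Real.exp V * X := by
    rw [← Real.log_le_log_iff hp0 (by positivity), Real.log_mul (Real.exp_pos _).ne' hX0.ne',
      Real.log_exp]
    linarith
  have h2 : Real.exp (-V) * X ≤ p := by
    rw [← Real.log_le_log_iff (by positivity) hp0, Real.log_mul (Real.exp_pos _).ne' hX0.ne',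
      Real.log_exp]
    linarith
  have h3 : (p : ℝ) ≤ (1 + 2 * V) * X := h1.trans (mul_le_mul_of_nonneg_right hexp hX0.le)
  have h4 : (1 - V) * X ≤ p := (mul_le_mul_of_nonneg_right hexp2 hX0.le).trans h2
  have h5 : |(p : ℝ) - X| ≤ 2 * V * X := by
    rw [abs_le]
    constructor
    · nlinarith [mul_pos hV hX0]
    · nlinarith
  rcases le_or_gt V (1 / 2) with hv | hv
  · left
    refine ⟨h5, ?_⟩
    nlinarith
  · right
    exact ⟨h5, hv⟩

theorem stShort_of (h1 : StErrU) (h2 : StOmU) (h3 : StPPU) : StShort := by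
  classical
  intro A
  obtain ⟨k, hk⟩ : ∃ k, k = 2 * A + 1 := ⟨_, rfl⟩
  obtain ⟨D, hD⟩ := h1 k
  obtain ⟨c, hc, hOm⟩ := h2 k
  obtain ⟨X₁, hPP⟩ := h3 k
  -- large X
  have hev : ∀ᶠ X : ℝ in Filter.atTop, 16 * (Real.log X) ^ A ≤ X := by
    have h := (Real.isLittleO_pow_log_id_atTop (n := A)).bound (show (0 : ℝ) < 1 / 16 by norm_num)
    filter_upwards [h, Filter.eventually_ge_atTop (1 : ℝ)] with X hX hX1
    have hl : 0 ≤ Real.log X := Real.log_nonneg hX1
    rw [Real.norm_of_nonneg (pow_nonneg hl A), id, Real.norm_of_nonneg (by linarith)] at hX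
    linarith
  obtain ⟨X₂, hX₂⟩ := Filter.eventually_atTop.1 hev
  obtain ⟨S, hS⟩ : ∃ S : ℝ, S = max 2 ((4 / c) * (2 * |D| + 1)) := ⟨_, rfl⟩
  refine ⟨c / (4 * (2 ^ (k + 1) * Real.exp 1)), max (max X₁ X₂) (Real.exp S), by positivity, ?_⟩
  intro X hX
  have hX1 : X₁ ≤ X := ((le_max_left _ _).trans (le_max_left _ _)).trans hX
  have hX2 : X₂ ≤ X := ((le_max_right _ _).trans (le_max_left _ _)).trans hX
  have hX3 : Real.exp S ≤ X := (le_max_right _ _).trans hX
  have hX0 : 0 < X := lt_of_lt_of_le (Real.exp_pos _) hX3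
  obtain ⟨L, hL⟩ : ∃ L, L = Real.log X := ⟨_, rfl⟩
  have hLS : S ≤ L := by rw [hL]; exact (Real.le_log_iff_exp_le hX0).2 hX3
  have hS2 : 2 ≤ S := by rw [hS]; exact le_max_left _ _
  have hSD : (4 / c) * (2 * |D| + 1) ≤ S := by rw [hS]; exact le_max_right _ _
  have hL2 : 2 ≤ L := hS2.trans hLS
  have hL0 : 0 < L := by linarith
  have hXe : Real.exp 2 ≤ X := (Real.exp_le_exp.2 hS2).trans hX3
  have h16 := hX₂ X hX2
  rw [← hL] at h16
  have hLA : 1 ≤ L ^ A := one_le_pow₀ (by linarith)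
  obtain ⟨V, hV⟩ : ∃ V, V = 1 / (2 * L ^ A) := ⟨_, rfl⟩
  have hV0 : 0 < V := by rw [hV]; positivity
  have hVhalf : V ≤ 1 / 2 := by
    rw [hV, div_le_div_iff₀ (by positivity) (by norm_num)]
    linarith
  have hV1 : V ≤ 1 := by linarith
  have hVX : 8 ≤ V * X := by
    rw [hV, one_div, inv_mul_eq_div, le_div_iff₀ (by positivity)]
    linarith
  have hVL : V * L ^ A = 1 / 2 := by
    rw [hV]; field_simp
  have e1 := hD V X hV0 hV1 hXe
  have e2 := hOm V X hV0 hV1 hXe hVX
  have e3 := hPP V X hV0 hV1 hX1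
  have h4 : ∑ n ∈ Icc 1 (NX V X), (ArithmeticFunction.vonMangoldt n - 1) * om V k X n =
      ∑ n ∈ Icc 1 (NX V X), ArithmeticFunction.vonMangoldt n * om V k X n -
        ∑ n ∈ Icc 1 (NX V X), om V k X n := by
    rw [← Finset.sum_sub_distrib]
    exact Finset.sum_congr rfl fun n _ => by ring
  rw [h4] at e1
  have h5 := (abs_le.mp e1).1
  rw [← hL] at e2
  have hmain : c * V * L ^ k = (c / 2) * (L ^ A * L) := by
    rw [hk, show 2 * A + 1 = A + (A + 1) by ring, pow_add, pow_succ]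
    calc c * V * (L ^ A * (L ^ A * L)) = c * (V * L ^ A) * (L ^ A * L) := by ring
      _ = (c / 2) * (L ^ A * L) := by rw [hVL]; ring
  have hDV : D / V ≤ 2 * |D| * L ^ A := by
    rw [div_le_iff₀ hV0]
    calc D ≤ |D| := le_abs_self D
      _ = 2 * |D| * (V * L ^ A) := by rw [hVL]; ring
      _ = 2 * |D| * L ^ A * V := by ring
  have hLc : (2 * |D| + 1) ≤ (c / 4) * L := by
    have h := hSD.trans hLS
    calc (2 * |D| + 1) = (c / 4) * ((4 / c) * (2 * |D| + 1)) := by field_simp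
      _ ≤ (c / 4) * L := mul_le_mul_of_nonneg_left h (by positivity)
  have hmass : (c / 4) * (L ^ A * L) ≤ Mass V k X := by
    have h6 : (2 * |D| + 1) * L ^ A ≤ (c / 4) * L * L ^ A :=
      mul_le_mul_of_nonneg_right hLc (by positivity)
    have h7 : 2 * |D| * L ^ A + 1 ≤ (2 * |D| + 1) * L ^ A := by nlinarith [abs_nonneg D]
    rw [hmain] at e2
    nlinarith
  -- upper bound of the mass
  set T := (Icc 1 ⌊2 * X⌋₊).filter (fun p : ℕ => p.Prime ∧
      |(p : ℝ) - X| ≤ X / (Real.log X) ^ A) with hT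
  obtain ⟨M, hM⟩ : ∃ M : ℝ, M = 2 ^ (k + 1) * Real.exp V * (Real.log X) ^ (k + 1) / X := ⟨_, rfl⟩
  have hX3' : 3 ≤ X := by
    have := Real.add_one_le_exp (2 : ℝ)
    linarith
  have hM0 : 0 ≤ M := by
    rw [hM, ← hL]; positivity
  have hup : Mass V k X ≤ (T.card : ℝ) * M := by
    unfold Mass
    have h8 : ∀ p ∈ PX V X, Real.log p * om V k X p ≤ if p ∈ T then M else 0 := by
      intro p hp
      rcases eq_or_ne (om V k X p) 0 with h0 | h0
      · rw [h0, mul_zero]
        split_ifs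
        · exact hM0
        · exact le_rfl
      · have hVX' : Real.exp V ≤ X :=
          (Real.exp_le_exp.2 (by linarith : V ≤ 2)).trans hXe
        have h9 := (term_upper hV0 k hX3' hVX' p hp h0).2
        have hp' := hp
        rw [PX, Finset.mem_filter, Finset.mem_Icc] at hp'
        have hmem : p ∈ T := by
          rw [hT, Finset.mem_filter, Finset.mem_Icc]
          rcases mem_of_om_ne hV0 hV1 hXe k p hp'.1.1 h0 with h10 | h10
          · refine ⟨⟨hp'.1.1, Nat.le_floor h10.2⟩, hp'.2, ?_⟩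
            refine h10.1.trans (le_of_eq ?_)
            rw [← hL, hV]
            field_simp
          · linarith [h10.2]
        rw [if_pos hmem, hM]
        exact h9
    calc ∑ p ∈ PX V X, Real.log p * om V k X p ≤ ∑ p ∈ PX V X, if p ∈ T then M else 0 :=
          Finset.sum_le_sum h8
      _ = (((PX V X).filter (fun p => p ∈ T)).card : ℝ) * M := by
          rw [← Finset.sum_filter, Finset.sum_const, nsmul_eq_mul]
      _ ≤ (T.card : ℝ) * M := by
          apply mul_le_mul_of_nonneg_right _ hM0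
          exact_mod_cast Finset.card_le_card (fun p hp => (Finset.mem_filter.1 hp).2)
  have hMle : M ≤ 2 ^ (k + 1) * Real.exp 1 * L ^ (k + 1) / X := by
    rw [hM, ← hL]
    gcongr
  have h11 : (c / 4) * (L ^ A * L) ≤ (T.card : ℝ) * (2 ^ (k + 1) * Real.exp 1 * L ^ (k + 1) / X) :=
    (hmass.trans hup).trans (mul_le_mul_of_nonneg_left hMle (by positivity))
  have hLk : L ^ (k + 1) = L ^ (A + 1) * (L ^ A * L) := by
    rw [hk, show 2 * A + 1 + 1 = (A + 1) + (A + 1) by ring, pow_add, pow_succ L A]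
  rw [hLk] at h11
  have hpos : 0 < L ^ A * L := by positivity
  have h12 : c / 4 ≤ (T.card : ℝ) * (2 ^ (k + 1) * Real.exp 1 * L ^ (A + 1) / X) := by
    have h13 : (T.card : ℝ) * (2 ^ (k + 1) * Real.exp 1 * (L ^ (A + 1) * (L ^ A * L)) / X) =
        (T.card : ℝ) * (2 ^ (k + 1) * Real.exp 1 * L ^ (A + 1) / X) * (L ^ A * L) := by ring
    rw [h13] at h11
    exact le_of_mul_le_mul_right h11 hpos
  rw [← hL]
  have he : 0 < 2 ^ (k + 1) * Real.exp 1 := by positivity
  rw [div_le_iff₀ (by positivity)]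
  have h14 : c / (4 * (2 ^ (k + 1) * Real.exp 1)) * X = (c / 4) * (X / (2 ^ (k + 1) * Real.exp 1)) := by
    field_simp
  rw [h14]
  calc (c / 4) * (X / (2 ^ (k + 1) * Real.exp 1)) ≤
      ((T.card : ℝ) * (2 ^ (k + 1) * Real.exp 1 * L ^ (A + 1) / X)) *
        (X / (2 ^ (k + 1) * Real.exp 1)) := mul_le_mul_of_nonneg_right h12 (by positivity)
    _ = (T.card : ℝ) * L ^ (A + 1) := by
        field_simp

end Pool.Agent.Helper12.Hof
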