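import Mathlib
import Pool.Agent.Helper12.Hof.Basic

/-! The bound `a n ≥ n + log log n / log 4` for all `n ≥ 4` (by helper1, from LowerBoundLogFour). -/

set_option autoImplicit false

namespace Pool.Agent.Helper12.Hof

open Finset

/-- `G K` bounds the `(K+2)`-nd missing number. -/
def G : ℕ → ℕ
  | 0 => 7
  | K + 1 => 2 * (G K * (G K + 1)) ^ 2

lemma G_pos (K : ℕ) : 1 ≤ G K := by
  induction K with
  | zero => simp [G]
  | succ K ih =>
    simp only [G]
    have : 1 ≤ (G K * (G K + 1)) ^ 2 := Nat.one_le_pow _ _ (by positivity)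
    omega

lemma le_card_miss_G {a : ℕ → ℕ} (h : IsHof a) (K : ℕ) : K + 2 ≤ (miss a (G K)).card := by
  classical
  induction K with
  | zero =>
    have : ({4, 7} : Finset ℕ) ⊆ miss a (G 0) := by
      intro y hy
      simp only [Finset.mem_insert, Finset.mem_singleton] at hy
      simp only [miss, Finset.mem_filter, Finset.mem_Icc, G]
      rcases hy with rfl | rfl
      · exact ⟨by norm_num, missing_four h⟩
      · exact ⟨by norm_num, missing_seven h⟩
    calc 0 + 2 = ({4, 7} : Finset ℕ).card := by decide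
      _ ≤ _ := Finset.card_le_card this
  | succ K ih =>
    obtain ⟨m, hm1, hm2, hm3⟩ := gap h (G K) (G_pos K)
    have hle : G K ≤ G (K + 1) := (hm1.le.trans hm2)
    have hsub : insert m (miss a (G K)) ⊆ miss a (G (K + 1)) := by
      intro y hy
      rw [Finset.mem_insert] at hy
      simp only [miss, Finset.mem_filter, Finset.mem_Icc] at hy ⊢
      rcases hy with rfl | hy
      · exact ⟨⟨by omega, hm2⟩, hm3⟩
      · exact ⟨⟨hy.1.1, hy.1.2.trans hle⟩, hy.2⟩
    have hnot : m ∉ miss a (G K) := by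
      simp only [miss, Finset.mem_filter, Finset.mem_Icc]
      omega
    calc K + 1 + 2 ≤ (miss a (G K)).card + 1 := by omega
      _ = (insert m (miss a (G K))).card := (Finset.card_insert_of_notMem hnot).symm
      _ ≤ _ := Finset.card_le_card hsub

lemma G_le_exp (K : ℕ) : ((G K : ℕ) : ℝ) + 1 ≤ (3 / 4) * Real.exp (4 ^ (K + 1)) := by
  induction K with
  | zero =>
    simp only [G]
    norm_num
    have h1 : (2.7 : ℝ) ≤ Real.exp 1 := by have := Real.exp_one_gt_d9; linarith
    have h2 : Real.exp 4 = Real.exp 1 ^ 4 := by rw [← Real.exp_nat_mul]; norm_num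
    rw [h2]
    have h3 : (2.7 : ℝ) ^ 4 ≤ Real.exp 1 ^ 4 := pow_le_pow_left₀ (by norm_num) h1 4
    norm_num at h3
    linarith
  | succ K ih =>
    have hg : (1:ℝ) ≤ (G K : ℝ) := by exact_mod_cast G_pos K
    have h1 : ((G (K + 1) : ℕ) : ℝ) + 1 ≤ 2 * ((G K : ℝ) + 1) ^ 4 := by
      simp only [G]
      push_cast
      nlinarith [sq_nonneg ((G K : ℝ) + 1), mul_pos (show (0:ℝ) < G K by linarith) (show (0:ℝ) < (G K : ℝ) + 1 by linarith)]
    have h2 : ((G K : ℝ) + 1) ^ 4 ≤ ((3 / 4) * Real.exp (4 ^ (K + 1))) ^ 4 :=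
      pow_le_pow_left₀ (by positivity) ih 4
    have h3 : ((3 / 4) * Real.exp (4 ^ (K + 1))) ^ 4 = (81 / 256) * Real.exp (4 ^ (K + 1 + 1)) := by
      rw [mul_pow, ← Real.exp_nat_mul]
      norm_num
      ring_nf
    have h4 : 0 < Real.exp (4 ^ (K + 1 + 1) : ℝ) := Real.exp_pos _
    rw [h3] at h2
    calc ((G (K + 1) : ℕ) : ℝ) + 1 ≤ 2 * ((G K : ℝ) + 1) ^ 4 := h1
      _ ≤ 2 * ((81 / 256) * Real.exp (4 ^ (K + 1 + 1))) := by gcongr
      _ ≤ (3 / 4) * Real.exp (4 ^ (K + 1 + 1)) := by linarith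

/-- For Hofstadter's sequence (`a 1 = 1`, `a 2 = 2`, and `a n` the least number above `a (n-1)`
that is a sum of two or more consecutive earlier terms) one has
`a n ≥ n + log log n / log 4` for every `n ≥ 4`. -/
theorem small_bound {a : ℕ → ℕ} (h : IsHof a) (n : ℕ) (hn : 4 ≤ n) :
    (n : ℝ) + Real.log (Real.log n) / Real.log 4 ≤ (a n : ℝ) := by
  have hcard := card_miss h n (by omega)
  set b := (miss a (a n)).card with hb
  have hb1 : 1 ≤ b := by
    rw [hb, Nat.succ_le_iff, Finset.card_pos]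
    refine ⟨4, ?_⟩
    simp only [miss, Finset.mem_filter, Finset.mem_Icc]
    have := ge_self h n (by omega)
    exact ⟨by omega, missing_four h⟩
  have hnle : (n : ℝ) ≤ Real.exp (4 ^ b) := by
    by_contra hcon
    push Not at hcon
    obtain ⟨K, hK⟩ : ∃ K, b = K + 1 := ⟨b - 1, by omega⟩
    have hG := G_le_exp K
    rw [← hK] at hG
    have h4 : 0 < Real.exp (4 ^ b : ℝ) := Real.exp_pos _
    have hGn : (G K : ℝ) < n := by linarith
    have hGn' : G K < n := by exact_mod_cast hGn
    have hna := ge_self h n (by omega)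
    have hsub : miss a (G K) ⊆ miss a (a n) := by
      intro y hy
      simp only [miss, Finset.mem_filter, Finset.mem_Icc] at hy ⊢
      exact ⟨⟨hy.1.1, by omega⟩, hy.2⟩
    have h5 := le_card_miss_G h K
    have h6 := Finset.card_le_card hsub
    omega
  have hnpos : (0:ℝ) < n := by positivity
  have hlogn : Real.log n ≤ 4 ^ b := by
    rw [← Real.log_exp (4 ^ b)]
    exact Real.log_le_log hnpos hnle
  have hlogpos : 0 < Real.log n := Real.log_pos (by exact_mod_cast (by omega : 1 < n))
  have hloglog : Real.log (Real.log n) ≤ b * Real.log 4 := by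
    calc Real.log (Real.log n) ≤ Real.log (4 ^ b) := Real.log_le_log hlogpos hlogn
      _ = b * Real.log 4 := by rw [Real.log_pow]
  have hlog4 : 0 < Real.log 4 := Real.log_pos (by norm_num)
  have hdiv : Real.log (Real.log n) / Real.log 4 ≤ b := by
    rw [div_le_iff₀ hlog4]; exact hloglog
  have hcast : (b : ℝ) + n = a n := by exact_mod_cast hcard
  linarith

end Pool.Agent.Helper12.Hof
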