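import Mathlib
import Pool.Agent.Helper12.Hof.Basic

/-! H-8: windows and blocked numbers. -/

set_option autoImplicit false

namespace Pool.Agent.Helper12.Hof

open Finset

theorem gauss (u v : ℕ) (huv : u ≤ v) : (v + 1 - u) * (u + v) = 2 * ∑ y ∈ Finset.Icc u v, y := by
  induction v, huv using Nat.le_induction with
  | base => simp; ring
  | succ v hv ih =>
    rw [Finset.sum_Icc_succ_top (by omega)]
    have e0 : 2 * (∑ y ∈ Finset.Icc u v, y + (v + 1)) =
      (v + 1 - u) * (u + v) + 2 * (v + 1) := by rw [ih]; ring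
    rw [e0]
    obtain ⟨d, rfl⟩ := Nat.exists_eq_add_of_le hv
    have e1 : u + d + 1 + 1 - u = d + 2 := by omega
    have e2 : u + d + 1 - u = d + 1 := by omega
    rw [e1, e2]
    ring

/-- every number which is not missing is the sum of a window -/
theorem window {a : ℕ → ℕ} (h : IsHof a) (N : ℕ) (hN : 3 ≤ N) (hm : ¬ Missing a N) :
    ∃ α β : ℕ, 1 ≤ α ∧ α < β ∧ β < N ∧
      (β + 1 - α) * (α + β) = 2 * (N + mE a α β) := by
  classical
  unfold Missing at hm
  push Not at hm
  obtain ⟨t, ht1, ht⟩ := hm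
  have ht3 : 3 ≤ t := by
    by_contra hlt
    have h4 : a t ≤ 2 := by
      have := le_of_le h ht1 (show t ≤ 2 by omega)
      rw [h.2.1] at this; exact this
    omega
  obtain ⟨_, i, j, hi, hij, hjt, hsum⟩ := (h.2.2 t ht3).1
  rw [ht] at hsum
  have hαβ : a i < a j := lt_of_lt h hi hij
  have hβN : a j < N := by rw [← ht]; exact lt_of_lt h (by omega) hjt
  have hα1 : 1 ≤ a i := by have := ge_self h i hi; omega
  refine ⟨a i, a j, hα1, hαβ, hβN, ?_⟩
  rw [gauss _ _ hαβ.le]
  congr 1
  have himg : (Finset.Icc i j).image a ⊆ Finset.Icc (a i) (a j) := by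
    intro y hy
    rw [Finset.mem_image] at hy
    obtain ⟨k, hk, rfl⟩ := hy
    rw [Finset.mem_Icc] at hk ⊢
    exact ⟨le_of_le h hi hk.1, le_of_le h (by omega) hk.2⟩
  have hinj : Set.InjOn a (Finset.Icc i j : Finset ℕ) := by
    intro k hk l hl hkl
    rw [Finset.coe_Icc, Set.mem_Icc] at hk hl
    apply le_antisymm
    · exact index_le h (by omega) hkl.le
    · exact index_le h (by omega) hkl.ge
  have hsum2 : ∑ y ∈ (Finset.Icc i j).image a, y = N := by
    rw [Finset.sum_image hinj, hsum]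
  have hfil : (Finset.Icc (a i) (a j)).filter (Missing a) =
      Finset.Icc (a i) (a j) \ (Finset.Icc i j).image a := by
    ext y
    rw [Finset.mem_filter, Finset.mem_sdiff]
    constructor
    · rintro ⟨h1, h2⟩
      refine ⟨h1, fun h3 => ?_⟩
      rw [Finset.mem_image] at h3
      obtain ⟨k, hk, hk2⟩ := h3
      rw [Finset.mem_Icc] at hk
      exact h2 k (by omega) hk2
    · rintro ⟨h1, h2⟩
      refine ⟨h1, fun k hk hky => ?_⟩
      apply h2
      rw [Finset.mem_image]
      refine ⟨k, ?_, hky⟩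
      rw [Finset.mem_Icc] at h1 ⊢
      constructor
      · exact index_le h hk (by omega)
      · exact index_le h (by omega) (by omega)
  unfold mE
  rw [hfil, ← hsum2]
  rw [← Finset.sum_sdiff himg]
  ring

theorem stSplit : StSplit := by
  classical
  intro a m n p h hm hm1 hn1 h8 hp hodd hlt hgt hN
  have hq8 : 8 ≤ 2 ^ n := by omega
  have hqq : 2 ^ n = 2 * 2 ^ (n - 1) := by
    rw [← pow_succ']; congr 1; omega
  have hp3 : 3 ≤ p := by
    have h2 := hp.two_le
    rcases hodd with ⟨r, hr⟩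
    omega
  have hN3 : 3 ≤ 2 ^ (n - 1) * p := by
    calc 3 ≤ 1 * p := by omega
      _ ≤ 2 ^ (n - 1) * p := Nat.mul_le_mul_right p Nat.one_le_two_pow
  have h4n : 4 ^ n = 2 ^ n * 2 ^ n := by
    rw [← mul_pow]; norm_num
  obtain ⟨α, β, hα1, hαβ, hβN, hwin⟩ := window h _ hN3 hN
  have hwin' : (β + 1 - α) * (α + β) = 2 ^ n * p + 2 * mE a α β := by
    rw [hwin, hqq]; ring
  have hβ4 : β ≤ 4 ^ n := by
    have : 2 ^ (n - 1) * p ≤ 4 ^ n := by
      rw [h4n, hqq]
      calc 2 ^ (n - 1) * p ≤ 2 ^ (n - 1) * (2 * 2 ^ n) := Nat.mul_le_mul_left _ (by omega)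
        _ = 2 * 2 ^ (n - 1) * (2 * 2 ^ (n - 1)) := by rw [hqq]; ring
    omega
  -- β is larger than m
  have hβm : m < β := by
    by_contra hcon
    push Not at hcon
    have h1 : (β + 1 - α) * (α + β) ≤ β * (2 * β) := Nat.mul_le_mul (by omega) (by omega)
    have h2 : β * (2 * β) ≤ m * (2 * m) := Nat.mul_le_mul hcon (by omega)
    have h3 : 2 ^ n * p ≤ m * (2 * m) := by omega
    have h4 : 8 * m * (6 * m) ≤ 2 ^ n * p := Nat.mul_le_mul h8 (by omega)
    nlinarith
  -- the window contains a missing number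
  have hne : ((Finset.Icc α β).filter (Missing a)).Nonempty := by
    rw [Finset.nonempty_iff_ne_empty]
    intro hemp
    have hE0 : mE a α β = 0 := by unfold mE; rw [hemp]; simp
    rw [hE0, mul_zero, add_zero] at hwin'
    set y := β + 1 - α with hy
    set z := α + β with hz
    have hy2 : 2 ≤ y := by omega
    have hyz : y < z := by omega
    have hpar : y + z = 2 * β + 1 := by omega
    -- the odd one is `p`
    have hcase : (y = p ∧ z = 2 ^ n) ∨ (z = p ∧ y = 2 ^ n) := by
      have hppos : 0 < p := hp.pos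
      have hcop : ∀ w : ℕ, Odd w → Nat.Coprime w (2 ^ n) := fun w hw =>
        (Nat.Coprime.pow_right n (Nat.coprime_two_right.2 hw))
      rcases Nat.even_or_odd y with hye | hyo
      · have hzo : Odd z := by
          rcases hye with ⟨r, hr⟩
          refine ⟨β - r, by omega⟩
        right
        have hdvd : z ∣ 2 ^ n * p := ⟨y, by rw [← hwin']; ring⟩
        have hdvd' : z ∣ p := (hcop z hzo).dvd_of_dvd_mul_left hdvd
        have hzp : z = p := by
          rcases (Nat.dvd_prime hp).1 hdvd' with h1 | h1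
          · omega
          · exact h1
        refine ⟨hzp, ?_⟩
        rw [hzp] at hwin'
        exact Nat.eq_of_mul_eq_mul_right hppos hwin'
      · left
        have hdvd : y ∣ 2 ^ n * p := ⟨z, by rw [← hwin']⟩
        have hdvd' : y ∣ p := (hcop y hyo).dvd_of_dvd_mul_left hdvd
        have hyp : y = p := by
          rcases (Nat.dvd_prime hp).1 hdvd' with h1 | h1
          · omega
          · exact h1
        refine ⟨hyp, ?_⟩
        rw [hyp, mul_comm] at hwin'
        exact Nat.eq_of_mul_eq_mul_right hppos hwin'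
    have hmem : m ∈ (Finset.Icc α β).filter (Missing a) := by
      rw [Finset.mem_filter, Finset.mem_Icc]
      refine ⟨⟨?_, hβm.le⟩, hm⟩
      rcases hcase with ⟨h1, h2⟩ | ⟨h1, h2⟩ <;> omega
    rw [hemp] at hmem
    simp at hmem
  obtain ⟨m', hm'mem, hmax⟩ := Finset.exists_max_image _ id hne
  rw [Finset.mem_filter, Finset.mem_Icc] at hm'mem
  have hEeq : mE a α β = mE a α m' := by
    unfold mE
    apply Finset.sum_congr _ (fun _ _ => rfl)
    ext w
    rw [Finset.mem_filter, Finset.mem_filter, Finset.mem_Icc, Finset.mem_Icc]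
    constructor
    · rintro ⟨h1, h2⟩
      have := hmax w (by rw [Finset.mem_filter, Finset.mem_Icc]; exact ⟨h1, h2⟩)
      simp only [id] at this
      exact ⟨⟨h1.1, this⟩, h2⟩
    · rintro ⟨h1, h2⟩
      exact ⟨⟨h1.1, by omega⟩, h2⟩
  rw [hEeq] at hwin'
  rcases Nat.lt_or_ge m m' with hmm | hmm
  · right
    exact ⟨α, β, m', hα1, hm'mem.1.1, hmm, hm'mem.1.2, by omega, hαβ, hm'mem.2, hwin'⟩
  · left
    have hαm : α ≤ m := by omega
    have : m ≤ m' := by
      have := hmax m (by rw [Finset.mem_filter, Finset.mem_Icc]; exact ⟨⟨hαm, hβm.le⟩, hm⟩)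
      simpa using this
    have hmeq : m' = m := by omega
    rw [hmeq] at hwin'
    exact ⟨α, β, hα1, hαm, hβm, hwin'⟩

end Pool.Agent.Helper12.Hof
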