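import Mathlib
import Pool.Agent.Helper12.Hof.ErrU
import Pool.Agent.Helper12.Hof.OmU
import Pool.Agent.Helper12.Hof.Short
import Pool.Agent.Helper12.Hof.Landreau
import Pool.Agent.Helper12.Hof.DivAP
import Pool.Agent.Helper12.Hof.Pairs
import Pool.Agent.Helper12.Hof.CountA
import Pool.Agent.Helper12.Hof.CountB
import Pool.Agent.Helper12.Hof.Split
import Pool.Agent.Helper12.Hof.Comb
import Pool.Agent.Helper12.Hof.GapM
import Pool.Agent.Helper12.Hof.FinalM
import Pool.Agent.Helper12.Hof.Small
import Pool.Agent.Helper16.SW.ZCompact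
import Pool.Agent.Helper16.SW.ZSum
import Pool.Agent.Helper16.SW.ZUp
import Pool.Agent.Helper16.SW.Triv
import Pool.Agent.Helper51.SW.ZLD
import Pool.Agent.Helper51.SW.ZLower
import Pool.Agent.Helper51.SW.ZTransform

/-! Hofstadter's consecutive-sum sequence: the final assembly. -/

set_option autoImplicit false

namespace Pool.Agent.Helper12.Hof

open Finset Pool.Agent.Helper6.SW

/-- primes in short intervals `[X - X/(log X)^A, X + X/(log X)^A]` -/
theorem stShort : StShort :=
  stShort_of
    (stErrU_of
      (Helper51.SW.stZLD_of Helper16.SW.stZDeriv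
        (Helper51.SW.stZLower_of Helper16.SW.stZDeriv Helper16.SW.stTrivA Helper16.SW.stTrivB)
        Helper16.SW.stZUp)
      Helper16.SW.stZCompact Helper51.SW.stZTransform)
    stOmU stPPU

theorem stComb : StComb :=
  stComb_of (stCountA_of (stPairs_of (stDivAP_of stLandreau stDivMoment))) stCountB stSplit

theorem stGap : StGap := stGap_of stShort stComb

theorem stFinal : StFinal := stFinal_of stGap

end Pool.Agent.Helper12.Hof
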